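import Pool.Agent.HamNet.Contract

/-!
# Triangles in 3-connected nets, and what contraction keeps

`triAt`: a triangle of a net with `Conn3` and more than four vertices can be contracted.
`con_allTwo`, `con_conn3`: contraction keeps `AllTwo` and `Conn3`.
-/

set_option autoImplicit false
set_option linter.unusedSectionVars false

namespace Pool.Agent.HamNet

open Finset

variable {V : Type} [Fintype V] [DecidableEq V] {N : Net V} {y : V}

theorem nb_zero (x : V) : N.nb 0 x = N.succ x := if_pos rfl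

theorem nb_one (x : V) : N.nb 1 x = N.succ.symm x := by
  unfold Net.nb
  rw [if_neg (by decide), if_pos rfl]

theorem nb_two (x : V) : N.nb 2 x = N.tau x := by
  unfold Net.nb
  rw [if_neg (by decide), if_neg (by decide)]

theorem conn3_false (h : N.Conn3) (hV : 4 < Fintype.card V) {x1 x2 x3 x4 : V} (a b : V × Fin 3)
    (hab : ∀ z : V × Fin 3, (z.1 = x1 ∨ z.1 = x2 ∨ z.1 = x3 ∨ z.1 = x4) →
      (N.nb z.2 z.1 = x1 ∨ N.nb z.2 z.1 = x2 ∨ N.nb z.2 z.1 = x3 ∨ N.nb z.2 z.1 = x4) ∨
        z = a ∨ z = b) : False := by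
  have h1 := h ({x1, x2, x3, x4} : Finset V) ⟨x1, by simp⟩ (by
    intro h2
    have h3 : #({x1, x2, x3, x4} : Finset V) ≤ 4 := card_le_four
    rw [h2, card_univ] at h3
    omega)
  have h2 : ({z : V × Fin 3 | z.1 ∈ ({x1, x2, x3, x4} : Finset V) ∧
      N.nb z.2 z.1 ∉ ({x1, x2, x3, x4} : Finset V)} : Finset (V × Fin 3)) ⊆ {a, b} := by
    intro z hz
    rw [mem_filter] at hz
    simp only [mem_univ, true_and, mem_insert, mem_singleton] at hz ⊢
    exact (hab z hz.1).resolve_left hz.2
  have h3 := card_le_card h2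
  have h4 : #({a, b} : Finset (V × Fin 3)) ≤ 2 := card_le_two
  omega

theorem triAt (h : N.Conn3) (hV : 4 < Fintype.card V)
    (ht : N.tau (N.succ y) = N.succ.symm y) : TriAt N y := by
  have ht' : N.tau (N.succ.symm y) = N.succ y := by rw [← ht, N.tau_tau]
  refine ⟨ht, fun hpq => ?_, fun hpt => ?_, fun hqt => ?_⟩
  · -- the vertices y, u, w, p
    refine conn3_false h hV (x1 := y) (x2 := N.succ y) (x3 := N.succ.symm y)
      (x4 := N.succ (N.succ y)) (y, 2) (N.succ (N.succ y), 2) ?_
    rintro ⟨x, i⟩ hx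
    change (x = _ ∨ x = _ ∨ x = _ ∨ x = _) at hx
    change (N.nb i x = _ ∨ N.nb i x = _ ∨ N.nb i x = _ ∨ N.nb i x = _) ∨ _
    rcases hx with rfl | rfl | rfl | rfl
    · fin_cases i
      · left; rw [show ((⟨0, by decide⟩ : Fin 3) = 0) from rfl, nb_zero]; simp
      · left; rw [show ((⟨1, by decide⟩ : Fin 3) = 1) from rfl, nb_one]; simp
      · right; left; rfl
    · fin_cases i
      · left; rw [show ((⟨0, by decide⟩ : Fin 3) = 0) from rfl, nb_zero]; simp
      · left; rw [show ((⟨1, by decide⟩ : Fin 3) = 1) from rfl, nb_one]; simp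
      · left; rw [show ((⟨2, by decide⟩ : Fin 3) = 2) from rfl, nb_two, ht]; simp
    · fin_cases i
      · left; rw [show ((⟨0, by decide⟩ : Fin 3) = 0) from rfl, nb_zero]; simp
      · left; rw [show ((⟨1, by decide⟩ : Fin 3) = 1) from rfl, nb_one, hpq]; simp
      · left; rw [show ((⟨2, by decide⟩ : Fin 3) = 2) from rfl, nb_two, ht']; simp
    · fin_cases i
      · left; rw [show ((⟨0, by decide⟩ : Fin 3) = 0) from rfl, nb_zero, ← hpq]; simp
      · left; rw [show ((⟨1, by decide⟩ : Fin 3) = 1) from rfl, nb_one]; simp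
      · right; right; rfl
  · refine conn3_false h hV (x1 := y) (x2 := N.succ y) (x3 := N.succ.symm y)
      (x4 := N.succ.symm (N.succ.symm y)) (N.succ y, 0) (N.succ.symm (N.succ.symm y), 1) ?_
    rintro ⟨x, i⟩ hx
    change (x = _ ∨ x = _ ∨ x = _ ∨ x = _) at hx
    change (N.nb i x = _ ∨ N.nb i x = _ ∨ N.nb i x = _ ∨ N.nb i x = _) ∨ _
    rcases hx with rfl | rfl | rfl | rfl
    · fin_cases i
      · left; rw [show ((⟨0, by decide⟩ : Fin 3) = 0) from rfl, nb_zero]; simp
      · left; rw [show ((⟨1, by decide⟩ : Fin 3) = 1) from rfl, nb_one]; simp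
      · left; rw [show ((⟨2, by decide⟩ : Fin 3) = 2) from rfl, nb_two, ← hpt]; simp
    · fin_cases i
      · right; left; rfl
      · left; rw [show ((⟨1, by decide⟩ : Fin 3) = 1) from rfl, nb_one]; simp
      · left; rw [show ((⟨2, by decide⟩ : Fin 3) = 2) from rfl, nb_two, ht]; simp
    · fin_cases i
      · left; rw [show ((⟨0, by decide⟩ : Fin 3) = 0) from rfl, nb_zero]; simp
      · left; rw [show ((⟨1, by decide⟩ : Fin 3) = 1) from rfl, nb_one]; simp
      · left; rw [show ((⟨2, by decide⟩ : Fin 3) = 2) from rfl, nb_two, ht']; simp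
    · fin_cases i
      · left; rw [show ((⟨0, by decide⟩ : Fin 3) = 0) from rfl, nb_zero]; simp
      · right; right; rfl
      · left; rw [show ((⟨2, by decide⟩ : Fin 3) = 2) from rfl, nb_two, hpt, N.tau_tau]; simp
  · refine conn3_false h hV (x1 := y) (x2 := N.succ y) (x3 := N.succ.symm y)
      (x4 := N.succ (N.succ y)) (N.succ.symm y, 1) (N.succ (N.succ y), 0) ?_
    rintro ⟨x, i⟩ hx
    change (x = _ ∨ x = _ ∨ x = _ ∨ x = _) at hx
    change (N.nb i x = _ ∨ N.nb i x = _ ∨ N.nb i x = _ ∨ N.nb i x = _) ∨ _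
    rcases hx with rfl | rfl | rfl | rfl
    · fin_cases i
      · left; rw [show ((⟨0, by decide⟩ : Fin 3) = 0) from rfl, nb_zero]; simp
      · left; rw [show ((⟨1, by decide⟩ : Fin 3) = 1) from rfl, nb_one]; simp
      · left; rw [show ((⟨2, by decide⟩ : Fin 3) = 2) from rfl, nb_two, ← hqt]; simp
    · fin_cases i
      · left; rw [show ((⟨0, by decide⟩ : Fin 3) = 0) from rfl, nb_zero]; simp
      · left; rw [show ((⟨1, by decide⟩ : Fin 3) = 1) from rfl, nb_one]; simp
      · left; rw [show ((⟨2, by decide⟩ : Fin 3) = 2) from rfl, nb_two, ht]; simp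
    · fin_cases i
      · left; rw [show ((⟨0, by decide⟩ : Fin 3) = 0) from rfl, nb_zero]; simp
      · right; left; rfl
      · left; rw [show ((⟨2, by decide⟩ : Fin 3) = 2) from rfl, nb_two, ht']; simp
    · fin_cases i
      · right; right; rfl
      · left; rw [show ((⟨1, by decide⟩ : Fin 3) = 1) from rfl, nb_one]; simp
      · left; rw [show ((⟨2, by decide⟩ : Fin 3) = 2) from rfl, nb_two, hqt, N.tau_tau]; simp

/-- The colouring of the old net. -/
private def up {α : Type} (_ : TriAt N y) (c : TriAt.Rest N y → α) (x : V) : α :=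
  if h : x ≠ N.succ y ∧ x ≠ N.succ.symm y then
    if x = y then c ⟨N.succ.symm (N.succ.symm y), TriAt.p_mem⟩ else c ⟨x, h⟩
  else c ⟨y, TriAt.y_mem⟩

private theorem up_rest {α : Type} (T : TriAt N y) (c : TriAt.Rest N y → α)
    (x : TriAt.Rest N y) (hx : x.1 ≠ y) : up T c x.1 = c x := by
  unfold up
  rw [dif_pos x.2, if_neg hx]

private theorem up_y {α : Type} (T : TriAt N y) (c : TriAt.Rest N y → α) :
    up T c y = c ⟨N.succ.symm (N.succ.symm y), TriAt.p_mem⟩ := by
  unfold up
  rw [dif_pos TriAt.y_mem, if_pos rfl]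

private theorem up_u {α : Type} (T : TriAt N y) (c : TriAt.Rest N y → α) :
    up T c (N.succ y) = c ⟨y, TriAt.y_mem⟩ := by
  unfold up
  rw [dif_neg (fun h => h.1 rfl)]

private theorem up_w {α : Type} (T : TriAt N y) (c : TriAt.Rest N y → α) :
    up T c (N.succ.symm y) = c ⟨y, TriAt.y_mem⟩ := by
  unfold up
  rw [dif_neg (fun h => h.2 rfl)]

private theorem up_p {α : Type} (T : TriAt N y) (c : TriAt.Rest N y → α) :
    up T c (N.succ.symm (N.succ.symm y)) = c ⟨N.succ.symm (N.succ.symm y), TriAt.p_mem⟩ :=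
  up_rest T c ⟨_, TriAt.p_mem⟩ TriAt.py

/-- the colour before a remaining vertex -/
private theorem up_symm {α : Type} (T : TriAt N y) (c : TriAt.Rest N y → α)
    (x : TriAt.Rest N y) (hx : x.1 ≠ y) :
    up T c (N.succ.symm x.1) = c (T.con.succ.symm x) := by
  by_cases h : x.1 = N.succ (N.succ y)
  · have h1 : N.succ.symm x.1 = N.succ y := by rw [h, Equiv.symm_apply_apply]
    rw [h1, up_u]
    congr 1
    apply Subtype.ext
    rw [TriAt.con_symm, h, TriAt.rV_q]
  · have h1 : (T.con.succ.symm x).1 = N.succ.symm x.1 := by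
      rw [TriAt.con_symm, TriAt.rV_else hx h]
    rw [← h1]
    apply up_rest
    rw [h1]
    intro h2
    exact x.2.1 (TriAt.symm_eq_y h2)

private theorem pair_rest (T : TriAt N y) (c : TriAt.Rest N y → ℕ) (x : TriAt.Rest N y) :
    s(up T c (N.succ.symm x.1), up T c x.1) = s(c (T.con.succ.symm x), c x) := by
  by_cases hx : x.1 = y
  · have h1 : x = ⟨y, TriAt.y_mem⟩ := Subtype.ext hx
    have h2 : T.con.succ.symm x = ⟨N.succ.symm (N.succ.symm y), TriAt.p_mem⟩ := by
      apply Subtype.ext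
      rw [TriAt.con_symm, hx, TriAt.rV_y]
    rw [h2, hx, up_w, up_y, h1]
    exact Sym2.eq_swap
  · rw [up_symm T c x hx, up_rest T c x hx]

theorem good_iff (c : V → ℕ) : N.Good c ↔ (∀ x, c (N.succ.symm x) ≠ c x) ∧
    ∀ x, s(c (N.succ.symm (N.tau x)), c (N.tau x)) = s(c (N.succ.symm x), c x) := by
  unfold Net.Good
  simp only [Sym2.eq_iff]

private theorem up_good (T : TriAt N y) (c : TriAt.Rest N y → ℕ) (hc : T.con.Good c) :
    N.Good (up T c) := by
  have hpy : c ⟨N.succ.symm (N.succ.symm y), TriAt.p_mem⟩ ≠ c ⟨y, TriAt.y_mem⟩ := by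
    have h1 := hc.1 ⟨y, TriAt.y_mem⟩
    have h2 : T.con.succ.symm ⟨y, TriAt.y_mem⟩ =
        ⟨N.succ.symm (N.succ.symm y), TriAt.p_mem⟩ := by
      apply Subtype.ext
      rw [TriAt.con_symm, TriAt.rV_y]
    rwa [h2] at h1
  rw [good_iff]
  have hc' : T.con.Good c ↔ (∀ x, c (T.con.succ.symm x) ≠ c x) ∧
    ∀ x, s(c (T.con.succ.symm (T.con.tau x)), c (T.con.tau x)) =
      s(c (T.con.succ.symm x), c x) := by
    unfold Net.Good
    simp only [Sym2.eq_iff]
  obtain ⟨hc1, hc2⟩ := hc'.1 hc
  constructor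
  · intro x
    by_cases hu : x = N.succ y
    · rw [hu, Equiv.symm_apply_apply, up_u, up_y]
      exact hpy
    · by_cases hw : x = N.succ.symm y
      · rw [hw, up_w, up_p]
        exact hpy
      · by_cases hy : x = y
        · rw [hy, up_w, up_y]
          exact hpy.symm
        · have h1 := up_symm T c ⟨x, hu, hw⟩ hy
          have h2 := up_rest T c ⟨x, hu, hw⟩ hy
          rw [h1, h2]
          exact hc1 _
  · intro x
    by_cases hu : x = N.succ y
    · rw [hu, T.tau, Equiv.symm_apply_apply, up_u, up_w, up_p, up_y]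
    · by_cases hw : x = N.succ.symm y
      · rw [hw, T.tau', Equiv.symm_apply_apply, up_u, up_w, up_p, up_y]
      · have h1 := pair_rest T c ⟨x, hu, hw⟩
        have h2 := pair_rest T c (T.con.tau ⟨x, hu, hw⟩)
        have h3 := hc2 ⟨x, hu, hw⟩
        rw [← h1, ← h2] at h3
        exact h3

theorem con_allTwo (T : TriAt N y) (hN : N.AllTwo) : T.con.AllTwo := by
  intro c hc
  refine le_trans (card_le_card ?_) (hN _ (up_good T c hc))
  intro a ha
  rw [mem_image] at ha ⊢
  obtain ⟨x, -, rfl⟩ := ha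
  by_cases hx : x.1 = y
  · have h1 : x = ⟨y, TriAt.y_mem⟩ := Subtype.ext hx
    exact ⟨N.succ y, mem_univ _, by rw [up_u, h1]⟩
  · exact ⟨x.1, mem_univ _, up_rest T c x hx⟩

theorem con_conn3 (T : TriAt N y) (h : N.Conn3) : T.con.Conn3 := by
  intro S' hne huniv
  let S : Finset V := {x : V | (∃ z ∈ S', z.1 = x) ∨
    ((⟨y, TriAt.y_mem⟩ : TriAt.Rest N y) ∈ S' ∧ (x = N.succ y ∨ x = N.succ.symm y))}
  have hS : ∀ x, x ∈ S ↔ (∃ z ∈ S', z.1 = x) ∨
      ((⟨y, TriAt.y_mem⟩ : TriAt.Rest N y) ∈ S' ∧ (x = N.succ y ∨ x = N.succ.symm y)) := by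
    intro x
    change x ∈ filter _ _ ↔ _
    rw [mem_filter]
    exact ⟨fun h => h.2, fun h => ⟨mem_univ _, h⟩⟩
  have hr : ∀ z : TriAt.Rest N y, z.1 ∈ S ↔ z ∈ S' := by
    intro z
    rw [hS]
    constructor
    · rintro (⟨z', h1, h2⟩ | ⟨-, h1⟩)
      · rwa [← Subtype.ext h2]
      · rcases h1 with h1 | h1
        · exact absurd h1 z.2.1
        · exact absurd h1 z.2.2
    · exact fun h1 => Or.inl ⟨z, h1, rfl⟩
  have huS : N.succ y ∈ S ↔ (⟨y, TriAt.y_mem⟩ : TriAt.Rest N y) ∈ S' := by
    rw [hS]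
    constructor
    · rintro (⟨z', h1, h2⟩ | ⟨h1, -⟩)
      · exact absurd h2 z'.2.1
      · exact h1
    · exact fun h1 => Or.inr ⟨h1, Or.inl rfl⟩
  have hwS : N.succ.symm y ∈ S ↔ (⟨y, TriAt.y_mem⟩ : TriAt.Rest N y) ∈ S' := by
    rw [hS]
    constructor
    · rintro (⟨z', h1, h2⟩ | ⟨h1, -⟩)
      · exact absurd h2 z'.2.2
      · exact h1
    · exact fun h1 => Or.inr ⟨h1, Or.inr rfl⟩
  have hyS : y ∈ S ↔ (⟨y, TriAt.y_mem⟩ : TriAt.Rest N y) ∈ S' := hr ⟨y, TriAt.y_mem⟩
  have h3 := h S (by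
    obtain ⟨z, hz⟩ := hne
    exact ⟨z.1, (hr z).2 hz⟩) (by
    intro h1
    apply huniv
    rw [eq_univ_iff_forall]
    intro z
    rw [← hr z, h1]
    exact mem_univ _)
  refine h3.trans ?_
  let f : V × Fin 3 → TriAt.Rest N y × Fin 3 := fun z =>
    (if h : z.1 ≠ N.succ y ∧ z.1 ≠ N.succ.symm y then ⟨z.1, h⟩ else ⟨y, TriAt.y_mem⟩, z.2)
  have hf1 : ∀ (x : V) (i : Fin 3) (hx : x ≠ N.succ y ∧ x ≠ N.succ.symm y),
      f (x, i) = (⟨x, hx⟩, i) := by
    intro x i hx
    change (dite _ _ _, i) = _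
    rw [dif_pos hx]
  have hf2 : ∀ (x : V) (i : Fin 3), (x = N.succ y ∨ x = N.succ.symm y) →
      f (x, i) = (⟨y, TriAt.y_mem⟩, i) := by
    intro x i hx
    change (dite _ _ _, i) = _
    rw [dif_neg (fun h => hx.elim h.1 h.2)]
  -- the boundary at the triangle
  have hb : ∀ (x : V) (i : Fin 3), x ∈ S → N.nb i x ∉ S → (x = N.succ y → i = 0) ∧
      (x = N.succ.symm y → i = 1) ∧ (x = y → i = 2) := by
    intro x i hx hi
    refine ⟨fun hx1 => ?_, fun hx1 => ?_, fun hx1 => ?_⟩
    · rw [hx1, huS] at hx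
      rw [hx1] at hi
      fin_cases i
      · rfl
      · exact absurd hi (by
          rw [not_not, show ((⟨1, by decide⟩ : Fin 3) = 1) from rfl, nb_one,
            Equiv.symm_apply_apply, hyS]
          exact hx)
      · exact absurd hi (by
          rw [not_not, show ((⟨2, by decide⟩ : Fin 3) = 2) from rfl, nb_two, T.tau, hwS]
          exact hx)
    · rw [hx1, hwS] at hx
      rw [hx1] at hi
      fin_cases i
      · exact absurd hi (by
          rw [not_not, show ((⟨0, by decide⟩ : Fin 3) = 0) from rfl, nb_zero,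
            Equiv.apply_symm_apply, hyS]
          exact hx)
      · rfl
      · exact absurd hi (by
          rw [not_not, show ((⟨2, by decide⟩ : Fin 3) = 2) from rfl, nb_two, T.tau', huS]
          exact hx)
    · rw [hx1, hyS] at hx
      rw [hx1] at hi
      fin_cases i
      · exact absurd hi (by
          rw [not_not, show ((⟨0, by decide⟩ : Fin 3) = 0) from rfl, nb_zero, huS]
          exact hx)
      · exact absurd hi (by
          rw [not_not, show ((⟨1, by decide⟩ : Fin 3) = 1) from rfl, nb_one, hwS]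
          exact hx)
      · rfl
  apply card_le_card_of_injOn f
  · rintro ⟨x, i⟩ hz
    rw [mem_coe, mem_filter] at hz ⊢
    obtain ⟨-, hz1, hz2⟩ := hz
    change x ∈ S at hz1
    change N.nb i x ∉ S at hz2
    refine ⟨mem_univ _, ?_⟩
    have hbb := hb x i hz1 hz2
    by_cases hu : x = N.succ y
    · have hi := hbb.1 hu
      rw [hf2 x i (Or.inl hu), hi]
      rw [hu, hi, nb_zero] at hz2
      rw [hu, huS] at hz1
      refine ⟨hz1, ?_⟩
      change T.con.nb 0 _ ∉ S'
      rw [nb_zero, ← hr, TriAt.con_succ, TriAt.sV_y]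
      exact hz2
    · by_cases hw : x = N.succ.symm y
      · have hi := hbb.2.1 hw
        rw [hf2 x i (Or.inr hw), hi]
        rw [hw, hi, nb_one] at hz2
        rw [hw, hwS] at hz1
        refine ⟨hz1, ?_⟩
        change T.con.nb 1 _ ∉ S'
        rw [nb_one, ← hr, TriAt.con_symm, TriAt.rV_y]
        exact hz2
      · rw [hf1 x i ⟨hu, hw⟩]
        refine ⟨(hr _).1 hz1, ?_⟩
        change T.con.nb i ⟨x, hu, hw⟩ ∉ S'
        rw [← hr]
        by_cases hy : x = y
        · have hi := hbb.2.2 hy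
          rw [hi, nb_two]
          rw [hi, nb_two] at hz2
          exact hz2
        · fin_cases i
          · rw [show ((⟨0, by decide⟩ : Fin 3) = 0) from rfl, nb_zero] at hz2 ⊢
            rw [TriAt.con_succ]
            change TriAt.sV N y x ∉ S
            by_cases hp : x = N.succ.symm (N.succ.symm y)
            · rw [hp, TriAt.sV_p, hyS, ← hwS]
              rw [hp, Equiv.apply_symm_apply] at hz2
              exact hz2
            · rw [TriAt.sV_else hy hp]
              exact hz2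
          · rw [show ((⟨1, by decide⟩ : Fin 3) = 1) from rfl, nb_one] at hz2 ⊢
            rw [TriAt.con_symm]
            change TriAt.rV N y x ∉ S
            by_cases hp : x = N.succ (N.succ y)
            · rw [hp, TriAt.rV_q, hyS, ← huS]
              rw [hp, Equiv.symm_apply_apply] at hz2
              exact hz2
            · rw [TriAt.rV_else hy hp]
              exact hz2
          · rw [show ((⟨2, by decide⟩ : Fin 3) = 2) from rfl, nb_two] at hz2 ⊢
            exact hz2
  · rintro ⟨x, i⟩ hz ⟨x', i'⟩ hz' he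
    rw [mem_coe, mem_filter] at hz hz'
    obtain ⟨-, hz1, hz2⟩ := hz
    obtain ⟨-, hz1', hz2'⟩ := hz'
    have hbb := hb x i hz1 hz2
    have hbb' := hb x' i' hz1' hz2'
    have hi : i = i' := congrArg Prod.snd he
    have key : ∀ (a : V) (b : Fin 3), (a = N.succ y → b = 0) → (a = N.succ.symm y → b = 1) →
        (a = y → b = 2) → ((f (a, b)).1.1 = y ↔ a = N.succ y ∨ a = N.succ.symm y ∨ a = y) := by
      intro a b _ _ _
      by_cases h1 : a = N.succ y
      · rw [hf2 a b (Or.inl h1)]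
        simp [h1]
      · by_cases h2 : a = N.succ.symm y
        · rw [hf2 a b (Or.inr h2)]
          simp [h2]
        · rw [hf1 a b ⟨h1, h2⟩]
          simp [h1, h2]
    have k1 := key x i hbb.1 hbb.2.1 hbb.2.2
    have k2 := key x' i' hbb'.1 hbb'.2.1 hbb'.2.2
    rw [he] at k1
    by_cases h1 : (f (x', i')).1.1 = y
    · have e1 := k1.1 h1
      have e2 := k2.1 h1
      have : x = x' := by
        rcases e1 with e1 | e1 | e1 <;> rcases e2 with e2 | e2 | e2
        · rw [e1, e2]
        · have := hbb.1 e1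
          have := hbb'.2.1 e2
          omega
        · have := hbb.1 e1
          have := hbb'.2.2 e2
          omega
        · have := hbb.2.1 e1
          have := hbb'.1 e2
          omega
        · rw [e1, e2]
        · have := hbb.2.1 e1
          have := hbb'.2.2 e2
          omega
        · have := hbb.2.2 e1
          have := hbb'.1 e2
          omega
        · have := hbb.2.2 e1
          have := hbb'.2.1 e2
          omega
        · rw [e1, e2]
      rw [this, hi]
    · have e1 : ¬ (x = N.succ y ∨ x = N.succ.symm y ∨ x = y) := fun h2 => h1 (k1.2 h2)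
      have e2 : ¬ (x' = N.succ y ∨ x' = N.succ.symm y ∨ x' = y) := fun h2 => h1 (k2.2 h2)
      push Not at e1 e2
      rw [hf1 x i ⟨e1.1, e1.2.1⟩, hf1 x' i' ⟨e2.1, e2.2.1⟩] at he
      have e3 : x = x' := congrArg (fun z => z.1.1) he
      rw [e3, hi]

end Pool.Agent.HamNet
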