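import Pool.Agent.HamNet.Defs

/-!
# Contraction of a triangle

The triangle is `y`, `u = succ y`, `w = succ.symm y` with `tau u = w`; `p = succ.symm w`,
`q = succ u`. The vertices `u`, `w` are deleted, `y` stays with the neighbours `p`, `q`, `tau y` and
changes its colour.
-/

set_option autoImplicit false
set_option linter.unusedSectionVars false
set_option linter.unusedVariables false

namespace Pool.Agent.HamNet

open Finset

variable {V : Type}

/-- A triangle whose contraction is again a simple graph. -/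
structure TriAt (N : Net V) (y : V) : Prop where
  tau : N.tau (N.succ y) = N.succ.symm y
  pq : N.succ.symm (N.succ.symm y) ≠ N.succ (N.succ y)
  pt : N.succ.symm (N.succ.symm y) ≠ N.tau y
  qt : N.succ (N.succ y) ≠ N.tau y

namespace TriAt

variable {N : Net V} {y : V}

theorem tau' (T : TriAt N y) : N.tau (N.succ.symm y) = N.succ y := by rw [← T.tau, N.tau_tau]

theorem qw : N.succ (N.succ y) ≠ N.succ.symm y := by
  intro h
  have h1 := N.chi_succ (N.succ y)
  rw [h, N.chi_symm, N.chi_succ] at h1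
  simp at h1

theorem pu : N.succ.symm (N.succ.symm y) ≠ N.succ y := by
  intro h
  have h1 := N.chi_symm (N.succ.symm y)
  rw [h, N.chi_symm, N.chi_succ] at h1
  simp at h1

theorem py : N.succ.symm (N.succ.symm y) ≠ y := by
  intro h
  apply N.succ_ne_symm y
  rw [Equiv.symm_apply_eq] at h
  exact h.symm

theorem qy : N.succ (N.succ y) ≠ y := by
  intro h
  apply N.succ_ne_symm y
  rw [Equiv.eq_symm_apply]
  exact h

/-- The remaining vertices. -/
abbrev Rest (N : Net V) (y : V) : Type := {x : V // x ≠ N.succ y ∧ x ≠ N.succ.symm y}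

theorem y_mem : y ≠ N.succ y ∧ y ≠ N.succ.symm y := ⟨(N.succ_ne y).symm, (N.symm_ne y).symm⟩

theorem q_mem : N.succ (N.succ y) ≠ N.succ y ∧ N.succ (N.succ y) ≠ N.succ.symm y :=
  ⟨N.succ_ne _, qw⟩

theorem p_mem : N.succ.symm (N.succ.symm y) ≠ N.succ y ∧
    N.succ.symm (N.succ.symm y) ≠ N.succ.symm y := ⟨pu, N.symm_ne _⟩

variable [DecidableEq V]

/-- the new successor -/
def sV (N : Net V) (y x : V) : V :=
  if x = y then N.succ (N.succ y) else if x = N.succ.symm (N.succ.symm y) then y else N.succ x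

/-- the new predecessor -/
def rV (N : Net V) (y x : V) : V :=
  if x = y then N.succ.symm (N.succ.symm y) else
    if x = N.succ (N.succ y) then y else N.succ.symm x

theorem sV_y : sV N y y = N.succ (N.succ y) := if_pos rfl

theorem sV_p : sV N y (N.succ.symm (N.succ.symm y)) = y := by
  unfold sV
  rw [if_neg py, if_pos rfl]

theorem sV_else {x : V} (h1 : x ≠ y) (h2 : x ≠ N.succ.symm (N.succ.symm y)) :
    sV N y x = N.succ x := by
  unfold sV
  rw [if_neg h1, if_neg h2]

theorem rV_y : rV N y y = N.succ.symm (N.succ.symm y) := if_pos rfl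

theorem rV_q : rV N y (N.succ (N.succ y)) = y := by
  unfold rV
  rw [if_neg qy, if_pos rfl]

theorem rV_else {x : V} (h1 : x ≠ y) (h2 : x ≠ N.succ (N.succ y)) :
    rV N y x = N.succ.symm x := by
  unfold rV
  rw [if_neg h1, if_neg h2]

theorem succ_eq_w {x : V} (h : N.succ x = N.succ.symm y) :
    x = N.succ.symm (N.succ.symm y) := by rw [← h, Equiv.symm_apply_apply]

theorem symm_eq_u {x : V} (h : N.succ.symm x = N.succ y) : x = N.succ (N.succ y) := by
  rw [← h, Equiv.apply_symm_apply]

theorem succ_eq_y {x : V} (h : N.succ x = y) : x = N.succ.symm y := by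
  rw [← h, Equiv.symm_apply_apply]

theorem symm_eq_y {x : V} (h : N.succ.symm x = y) : x = N.succ y := by
  rw [← h, Equiv.apply_symm_apply]

theorem s_mem {x : V} (hx : x ≠ N.succ y ∧ x ≠ N.succ.symm y) :
    sV N y x ≠ N.succ y ∧ sV N y x ≠ N.succ.symm y := by
  by_cases h1 : x = y
  · rw [h1, sV_y]
    exact q_mem
  · by_cases h2 : x = N.succ.symm (N.succ.symm y)
    · rw [h2, sV_p]
      exact y_mem
    · rw [sV_else h1 h2]
      exact ⟨fun h => h1 (N.succ.injective h), fun h => h2 (succ_eq_w h)⟩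

theorem r_mem {x : V} (hx : x ≠ N.succ y ∧ x ≠ N.succ.symm y) :
    rV N y x ≠ N.succ y ∧ rV N y x ≠ N.succ.symm y := by
  by_cases h1 : x = y
  · rw [h1, rV_y]
    exact p_mem
  · by_cases h2 : x = N.succ (N.succ y)
    · rw [h2, rV_q]
      exact y_mem
    · rw [rV_else h1 h2]
      exact ⟨fun h => h2 (symm_eq_u h), fun h => h1 (N.succ.symm.injective h)⟩

theorem rs {x : V} (hx : x ≠ N.succ y ∧ x ≠ N.succ.symm y) : rV N y (sV N y x) = x := by
  by_cases h1 : x = y
  · rw [h1, sV_y, rV_q]
  · by_cases h2 : x = N.succ.symm (N.succ.symm y)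
    · rw [h2, sV_p, rV_y]
    · rw [sV_else h1 h2, rV_else (fun h => hx.2 (succ_eq_y h))
        (fun h => hx.1 (N.succ.injective h)), Equiv.symm_apply_apply]

theorem sr {x : V} (hx : x ≠ N.succ y ∧ x ≠ N.succ.symm y) : sV N y (rV N y x) = x := by
  by_cases h1 : x = y
  · rw [h1, rV_y, sV_p]
  · by_cases h2 : x = N.succ (N.succ y)
    · rw [h2, rV_q, sV_y]
    · rw [rV_else h1 h2, sV_else (fun h => hx.1 (symm_eq_y h))
        (fun h => hx.2 (N.succ.symm.injective h)), Equiv.apply_symm_apply]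

theorem s_ne_r (T : TriAt N y) {x : V} (hx : x ≠ N.succ y ∧ x ≠ N.succ.symm y) :
    sV N y x ≠ rV N y x := by
  by_cases h1 : x = y
  · rw [h1, sV_y, rV_y]
    exact T.pq.symm
  · by_cases h2 : x = N.succ.symm (N.succ.symm y)
    · rw [h2, sV_p, rV_else py T.pq]
      intro h
      have h3 := symm_eq_y h.symm
      exact pu h3
    · by_cases h3 : x = N.succ (N.succ y)
      · rw [h3, rV_q, sV_else qy T.pq.symm]
        intro h
        exact qw (succ_eq_y h)
      · rw [sV_else h1 h2, rV_else h1 h3]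
        exact N.succ_ne_symm x

theorem tau_ne_s (T : TriAt N y) (x : V) : N.tau x ≠ sV N y x := by
  by_cases h1 : x = y
  · rw [h1, sV_y]
    exact T.qt.symm
  · by_cases h2 : x = N.succ.symm (N.succ.symm y)
    · rw [h2, sV_p]
      intro h
      apply T.pt
      rw [← N.tau_tau (N.succ.symm (N.succ.symm y)), h]
    · rw [sV_else h1 h2]
      exact N.tau_ne_succ x

theorem tau_ne_r (T : TriAt N y) (x : V) : N.tau x ≠ rV N y x := by
  by_cases h1 : x = y
  · rw [h1, rV_y]
    exact T.pt.symm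
  · by_cases h2 : x = N.succ (N.succ y)
    · rw [h2, rV_q]
      intro h
      apply T.qt
      rw [← N.tau_tau (N.succ (N.succ y)), h]
    · rw [rV_else h1 h2]
      exact N.tau_ne_symm x

/-- the new colouring -/
def cV (N : Net V) (y x : V) : Bool := if x = y then !N.chi y else N.chi x

theorem cV_s {x : V} (hx : x ≠ N.succ y ∧ x ≠ N.succ.symm y) :
    cV N y (sV N y x) = !cV N y x := by
  unfold cV
  by_cases h1 : x = y
  · rw [if_pos h1, h1, sV_y, if_neg qy, N.chi_succ, N.chi_succ]
  · rw [if_neg h1]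
    by_cases h2 : x = N.succ.symm (N.succ.symm y)
    · rw [h2, sV_p, if_pos rfl, N.chi_symm, N.chi_symm, Bool.not_not]
    · rw [sV_else h1 h2, if_neg (fun h => hx.2 (succ_eq_y h)), N.chi_succ]

theorem t_mem (T : TriAt N y) {x : V} (hx : x ≠ N.succ y ∧ x ≠ N.succ.symm y) :
    N.tau x ≠ N.succ y ∧ N.tau x ≠ N.succ.symm y :=
  ⟨fun h => hx.2 (by rw [← N.tau_tau x, h, T.tau]),
    fun h => hx.1 (by rw [← N.tau_tau x, h, T.tau'])⟩

/-- The contracted net. -/
def con (T : TriAt N y) : Net (Rest N y) where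
  succ :=
    { toFun := fun x => ⟨sV N y x.1, s_mem x.2⟩
      invFun := fun x => ⟨rV N y x.1, r_mem x.2⟩
      left_inv := fun x => Subtype.ext (rs x.2)
      right_inv := fun x => Subtype.ext (sr x.2) }
  tau x := ⟨N.tau x.1, T.t_mem x.2⟩
  chi x := cV N y x.1
  tau_tau x := Subtype.ext (N.tau_tau x.1)
  tau_ne x h := N.tau_ne x.1 (congrArg Subtype.val h)
  succ_ne_symm x h := T.s_ne_r x.2 (congrArg Subtype.val h)
  tau_ne_succ x h := T.tau_ne_s x.1 (congrArg Subtype.val h)
  tau_ne_symm x h := T.tau_ne_r x.1 (congrArg Subtype.val h)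
  chi_succ x := cV_s x.2

theorem con_succ (T : TriAt N y) (x : Rest N y) : (T.con.succ x).1 = sV N y x.1 := rfl

theorem con_symm (T : TriAt N y) (x : Rest N y) : (T.con.succ.symm x).1 = rV N y x.1 := rfl

theorem con_tau (T : TriAt N y) (x : Rest N y) : (T.con.tau x).1 = N.tau x.1 := rfl

theorem con_chi (T : TriAt N y) (x : Rest N y) : T.con.chi x = cV N y x.1 := rfl

end TriAt

end Pool.Agent.HamNet
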