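import Pool.Agent.HamNet.Invol

/-!
# Alternately coloured 2-factor with a perfect matching

`Net V`: `succ` runs through the cycles of the 2-factor, `tau` is the perfect matching, `chi` is a
2-colouring of `V` which changes along every edge of the 2-factor. A colouring `c : V → α` is a
colouring of the edges of the 2-factor, `c x` belongs to the edge `x, succ x`. It is good if the
two edges at a vertex have different colours and if the same pair of colours occurs at both ends of
every edge of the matching. `AllTwo`: all good colourings use at most two colours.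
-/

set_option autoImplicit false

namespace Pool.Agent.HamNet

open Finset

/-- A 2-factor, a perfect matching and an alternating colouring. -/
structure Net (V : Type) where
  /-- the next vertex on the 2-factor -/
  succ : Equiv.Perm V
  /-- the partner -/
  tau : V → V
  /-- the colouring -/
  chi : V → Bool
  tau_tau : ∀ x, tau (tau x) = x
  tau_ne : ∀ x, tau x ≠ x
  succ_ne_symm : ∀ x, succ x ≠ succ.symm x
  tau_ne_succ : ∀ x, tau x ≠ succ x
  tau_ne_symm : ∀ x, tau x ≠ succ.symm x
  chi_succ : ∀ x, chi (succ x) = !chi x

namespace Net

variable {V : Type} (N : Net V)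

/-- Good colourings. -/
def Good {α : Type} (c : V → α) : Prop :=
  (∀ x, c (N.succ.symm x) ≠ c x) ∧
    ∀ x, (c (N.succ.symm (N.tau x)) = c (N.succ.symm x) ∧ c (N.tau x) = c x) ∨
      (c (N.succ.symm (N.tau x)) = c x ∧ c (N.tau x) = c (N.succ.symm x))

/-- All good colourings use at most two colours. -/
def AllTwo [Fintype V] : Prop :=
  ∀ c : V → ℕ, N.Good c → #(univ.image c) ≤ 2

/-- The cubic graph. -/
def graph : SimpleGraph V where
  Adj x y := y = N.succ x ∨ x = N.succ y ∨ y = N.tau x
  symm := ⟨by
    rintro x y (h | h | h)
    · exact Or.inr (Or.inl h)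
    · exact Or.inl h
    · exact Or.inr (Or.inr (by rw [h, N.tau_tau]))⟩
  loopless := ⟨by
    rintro x (h | h | h)
    · have h1 := N.chi_succ x
      rw [← h] at h1
      simp at h1
    · have h1 := N.chi_succ x
      rw [← h] at h1
      simp at h1
    · exact N.tau_ne x h.symm⟩

/-- The neighbours as a function. -/
def nb (i : Fin 3) (x : V) : V :=
  if i = 0 then N.succ x else if i = 1 then N.succ.symm x else N.tau x

/-- Every set of vertices which is not empty and not everything has at least three boundary
edges. -/
def Conn3 [Fintype V] [DecidableEq V] : Prop :=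
  ∀ S : Finset V, S.Nonempty → S ≠ univ →
    3 ≤ #{z : V × Fin 3 | z.1 ∈ S ∧ N.nb z.2 z.1 ∉ S}

/-- The vertices whose matching edge is monochromatic. -/
def mono [Fintype V] [DecidableEq V] : Finset V := {x : V | N.chi (N.tau x) = N.chi x}

theorem succ_ne (x : V) : N.succ x ≠ x := by
  intro h
  have h1 := N.chi_succ x
  rw [h] at h1
  simp at h1

theorem chi_symm (x : V) : N.chi (N.succ.symm x) = !N.chi x := by
  have h1 := N.chi_succ (N.succ.symm x)
  rw [Equiv.apply_symm_apply] at h1
  rw [h1]
  simp

theorem symm_ne (x : V) : N.succ.symm x ≠ x := by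
  intro h
  have h1 := N.chi_symm x
  rw [h] at h1
  simp at h1

theorem tau_inj {x y : V} (h : N.tau x = N.tau y) : x = y := by
  rw [← N.tau_tau x, h, N.tau_tau]

/-- Colourings by a type which embeds in the natural numbers. -/
theorem AllTwo.le [Fintype V] {N : Net V} (h : N.AllTwo) {α : Type} [DecidableEq α]
    (f : α → ℕ) (hf : Function.Injective f) (c : V → α) (hc : N.Good c) :
    #(univ.image c) ≤ 2 := by
  have h1 : N.Good (fun x => f (c x)) := by
    refine ⟨fun x h2 => hc.1 x (hf h2), fun x => ?_⟩
    rcases hc.2 x with ⟨h2, h3⟩ | ⟨h2, h3⟩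
    · left
      exact ⟨congrArg f h2, congrArg f h3⟩
    · right
      exact ⟨congrArg f h2, congrArg f h3⟩
  have h2 := h _ h1
  have h3 : univ.image (fun x => f (c x)) = (univ.image c).image f := by
    rw [image_image]
    rfl
  rw [h3, card_image_of_injective _ hf] at h2
  exact h2

end Net

end Pool.Agent.HamNet
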