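import Pool.Agent.HamNet.FromG

/-!
# Degrees in a set of edges of weight one

`deg_eq`: in the net of a Hamiltonian weight the degree of `x` in a set `U` of edges of weight one
is the number of the two edges `x, succ x` and `x, succ.symm x` which belong to `U`.
-/

set_option autoImplicit false
set_option linter.unusedSectionVars false

namespace Pool.Agent.HamNet

open Finset SimpleGraph Pool.Agent.HamWt

/-- The number of edges of the set `U` which are incident with the vertex `x`. -/
noncomputable def edgeDeg {V : Type} {G : SimpleGraph V} (U : Set G.edgeSet) (x : V) : ℕ :=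
  {e : G.edgeSet | e ∈ U ∧ x ∈ (e : Sym2 V)}.ncard

variable {V : Type} [Fintype V] [DecidableEq V]

/-- Membership of the edge `x, y`. -/
def inU {G : SimpleGraph V} (U : Set G.edgeSet) (x y : V) : Prop :=
  ∃ h : G.Adj x y, (⟨s(x, y), h⟩ : G.edgeSet) ∈ U

theorem inU_comm {G : SimpleGraph V} (U : Set G.edgeSet) (x y : V) : inU U x y ↔ inU U y x := by
  have key : ∀ a b : V, inU U a b → inU U b a := by
    rintro a b ⟨h, h1⟩
    refine ⟨h.symm, ?_⟩
    have h2 : (⟨s(b, a), h.symm⟩ : G.edgeSet) = ⟨s(a, b), h⟩ := Subtype.ext Sym2.eq_swap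
    rw [h2]
    exact h1
  exact ⟨key x y, key y x⟩

theorem deg_eq {G : SimpleGraph V} (f : G.edgeSet → ℕ) (N : Net V) (hN : N.graph = G)
    (hf1 : ∀ x y (h : G.Adj x y), f ⟨s(x, y), h⟩ = 1 ↔ (y = N.succ x ∨ y = N.succ.symm x))
    (U : Set G.edgeSet) (hU : ∀ e ∈ U, f e = 1) (x : V) [Decidable (inU U x (N.succ x))]
    [Decidable (inU U (N.succ.symm x) x)] :
    edgeDeg U x = (if inU U x (N.succ x) then 1 else 0) +
      (if inU U (N.succ.symm x) x then 1 else 0) := by
  have ha : G.Adj x (N.succ x) := by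
    rw [← hN]
    exact Or.inl rfl
  have hb : G.Adj x (N.succ.symm x) := by
    rw [← hN, graph_adj]
    exact Or.inr (Or.inl rfl)
  have hset : {e : G.edgeSet | e ∈ U ∧ x ∈ (e : Sym2 V)} =
      {e : G.edgeSet | e ∈ U ∧ (e = ⟨s(x, N.succ x), ha⟩ ∨ e = ⟨s(x, N.succ.symm x), hb⟩)} := by
    ext e
    constructor
    · rintro ⟨h1, h2⟩
      refine ⟨h1, ?_⟩
      obtain ⟨y, hy⟩ := Sym2.mem_iff_exists.1 h2
      obtain ⟨ed, hed⟩ := e
      change ed = s(x, y) at hy
      subst hy
      have h3 := (hf1 x y hed).1 (hU _ h1)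
      rcases h3 with h3 | h3
      · left
        exact Subtype.ext (congrArg (fun z => s(x, z)) h3)
      · right
        exact Subtype.ext (congrArg (fun z => s(x, z)) h3)
    · rintro ⟨h1, h2 | h2⟩
      · refine ⟨h1, ?_⟩
        rw [h2]
        exact Sym2.mem_mk_left _ _
      · refine ⟨h1, ?_⟩
        rw [h2]
        exact Sym2.mem_mk_left _ _
  have hne : (⟨s(x, N.succ x), ha⟩ : G.edgeSet) ≠ ⟨s(x, N.succ.symm x), hb⟩ := by
    intro h
    have h1 : s(x, N.succ x) = s(x, N.succ.symm x) := congrArg Subtype.val h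
    rw [Sym2.congr_right] at h1
    exact N.succ_ne_symm x h1
  have h1 : inU U x (N.succ x) ↔ (⟨s(x, N.succ x), ha⟩ : G.edgeSet) ∈ U :=
    ⟨fun ⟨_, h⟩ => h, fun h => ⟨ha, h⟩⟩
  have h2 : inU U (N.succ.symm x) x ↔ (⟨s(x, N.succ.symm x), hb⟩ : G.edgeSet) ∈ U := by
    rw [inU_comm]
    exact ⟨fun ⟨_, h⟩ => h, fun h => ⟨hb, h⟩⟩
  unfold edgeDeg
  rw [hset]
  by_cases c1 : inU U x (N.succ x) <;> by_cases c2 : inU U (N.succ.symm x) x
  · rw [if_pos c1, if_pos c2]
    have h3 : {e : G.edgeSet | e ∈ U ∧ (e = ⟨s(x, N.succ x), ha⟩ ∨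
        e = ⟨s(x, N.succ.symm x), hb⟩)} = {⟨s(x, N.succ x), ha⟩, ⟨s(x, N.succ.symm x), hb⟩} := by
      ext e
      constructor
      · exact fun h => h.2
      · intro h
        refine ⟨?_, h⟩
        rcases h with h | h
        · rw [h]
          exact h1.1 c1
        · rw [h]
          exact h2.1 c2
    rw [h3, Set.ncard_pair hne]
  · rw [if_pos c1, if_neg c2]
    have h3 : {e : G.edgeSet | e ∈ U ∧ (e = ⟨s(x, N.succ x), ha⟩ ∨
        e = ⟨s(x, N.succ.symm x), hb⟩)} = {⟨s(x, N.succ x), ha⟩} := by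
      ext e
      constructor
      · rintro ⟨h, h4 | h4⟩
        · exact h4
        · rw [h4] at h
          exact absurd (h2.2 h) c2
      · intro h
        rw [h]
        exact ⟨h1.1 c1, Or.inl rfl⟩
    rw [h3, Set.ncard_singleton]
  · rw [if_neg c1, if_pos c2]
    have h3 : {e : G.edgeSet | e ∈ U ∧ (e = ⟨s(x, N.succ x), ha⟩ ∨
        e = ⟨s(x, N.succ.symm x), hb⟩)} = {⟨s(x, N.succ.symm x), hb⟩} := by
      ext e
      constructor
      · rintro ⟨h, h4 | h4⟩
        · rw [h4] at h
          exact absurd (h1.2 h) c1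
        · exact h4
      · intro h
        rw [h]
        exact ⟨h2.1 c2, Or.inr rfl⟩
    rw [h3, Set.ncard_singleton]
  · rw [if_neg c1, if_neg c2]
    have h3 : {e : G.edgeSet | e ∈ U ∧ (e = ⟨s(x, N.succ x), ha⟩ ∨
        e = ⟨s(x, N.succ.symm x), hb⟩)} = ∅ := by
      ext e
      constructor
      · rintro ⟨h, h4 | h4⟩
        · rw [h4] at h
          exact absurd (h1.2 h) c1
        · rw [h4] at h
          exact absurd (h2.2 h) c2
      · intro h
        exact absurd h (Set.notMem_empty _)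
    rw [h3, Set.ncard_empty]

theorem flow_graph [Nonempty V] {G : SimpleGraph V} (f : G.edgeSet → ℕ) (N : Net V)
    (hA : N.AllTwo) (hN : N.graph = G)
    (hf1 : ∀ x y (h : G.Adj x y), f ⟨s(x, y), h⟩ = 1 ↔ (y = N.succ x ∨ y = N.succ.symm x))
    (hf2 : ∀ x y (h : G.Adj x y), f ⟨s(x, y), h⟩ = 2 ↔ y = N.tau x)
    (U : Set G.edgeSet) (hU : ∀ e ∈ U, f e = 1)
    (h2 : ∀ x y (h : G.Adj x y), f ⟨s(x, y), h⟩ = 2 →
      edgeDeg U x = edgeDeg U y ∧ (edgeDeg U x = 1 → N.chi x ≠ N.chi y)) (x : V) :
    edgeDeg U x ≠ 1 := by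
  classical
  let u : V → Bool := fun x => decide (inU U x (N.succ x))
  have hdeg : ∀ x, edgeDeg U x = (if u x = true then 1 else 0) +
      (if u (N.succ.symm x) = true then 1 else 0) := by
    intro x
    have h3 : (u (N.succ.symm x) = true) ↔ inU U (N.succ.symm x) x := by
      change decide (inU U (N.succ.symm x) (N.succ (N.succ.symm x))) = true ↔ _
      rw [decide_eq_true_iff, Equiv.apply_symm_apply]
    have h4 : (u x = true) ↔ inU U x (N.succ x) := decide_eq_true_iff
    simp only [h3, h4]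
    exact deg_eq f N hN hf1 U hU x
  have hd : ∀ x, edgeDeg U x = 1 ↔ u x ≠ u (N.succ.symm x) := by
    intro x
    rw [hdeg]
    cases u x <;> cases u (N.succ.symm x) <;> simp
  have ht : ∀ x, edgeDeg U x = edgeDeg U (N.tau x) ∧
      (edgeDeg U x = 1 → N.chi x ≠ N.chi (N.tau x)) := by
    intro x
    have h3 : G.Adj x (N.tau x) := by
      rw [← hN]
      exact Or.inr (Or.inr rfl)
    exact h2 x _ h3 ((hf2 _ _ _).2 rfl)
  have hmain := flow N hA u (by
    intro x
    have h3 := (ht x).1
    rw [hdeg x, hdeg (N.tau x)] at h3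
    revert h3
    cases u x <;> cases u (N.succ.symm x) <;> cases u (N.tau x) <;>
      cases u (N.succ.symm (N.tau x)) <;> simp) (by
    intro x h3
    exact ((ht x).2 ((hd x).2 h3)).symm)
  rcases hmain with h3 | h3
  · intro h4
    exact (hd x).1 h4 (h3 x)
  · exact absurd (fun z => ((ht z).2 ((hd z).2 (h3 z))).symm) (not_all N hA)

/-- A colouring with all edges of weight one bichromatic. -/
theorem exists_chi (G : SimpleGraph V) [DecidableRel G.Adj] (hG : G.IsRegularOfDegree 3)
    (f : G.edgeSet → ℕ) (hf : HamiltonianWeight G f) :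
    ∃ chi : V → Bool, ∀ x y (h : G.Adj x y), f ⟨s(x, y), h⟩ = 1 → chi x ≠ chi y := by
  obtain ⟨t1, t2, m, h1, h2, h3, h4, h5, h6, hadj, hf1, hf2⟩ := exists_matchings G hG f hf
  have a1 : ∀ x, G.Adj x (t1 x) := fun x => (hadj x _).2 (Or.inl rfl)
  have a2 : ∀ x, G.Adj x (t2 x) := fun x => (hadj x _).2 (Or.inr (Or.inl rfl))
  obtain ⟨c, hc⟩ := exists_bool t1 t2 h1 h2 (fun x => (a1 x).ne') (fun x => (a2 x).ne')
  refine ⟨c, fun x y h h7 => ?_⟩
  rcases (hf1 x y h).1 h7 with h8 | h8
  · rw [h8]
    exact (hc x).1.symm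
  · rw [h8]
    exact (hc x).2.symm

/-- The frozen conclusion for near bipartite graphs. -/
theorem near (G : SimpleGraph V) [DecidableRel G.Adj] (hG : G.IsRegularOfDegree 3)
    (h3 : ∀ S : Finset V, S.card ≤ 2 → (G.induce ((S : Set V)ᶜ)).Connected)
    (f : G.edgeSet → ℕ) (hf : HamiltonianWeight G f)
    (e1 e2 : G.edgeSet) (h1 : f e1 = 2) (h2 : f e2 = 2)
    (hb : (G.deleteEdges {(e1 : Sym2 V), (e2 : Sym2 V)}).IsBipartite)
    {P : (n : ℕ) → SimpleGraph (Fin n) → Prop} (hP : Closed P) :
    ∃ G' : SimpleGraph (Fin (Fintype.card V)), Nonempty (G ≃g G') ∧ P _ G' := by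
  classical
  obtain ⟨col⟩ := hb
  let chi : V → Bool := fun x => decide (col x = 0)
  have hchi : ∀ x y (h : G.Adj x y), (⟨s(x, y), h⟩ : G.edgeSet) ≠ e1 →
      (⟨s(x, y), h⟩ : G.edgeSet) ≠ e2 → chi x ≠ chi y := by
    intro x y h h4 h5 h6
    have h7 : (G.deleteEdges {(e1 : Sym2 V), (e2 : Sym2 V)}).Adj x y := by
      rw [deleteEdges_adj]
      refine ⟨h, ?_⟩
      rintro (h8 | h8)
      · exact h4 (Subtype.ext h8)
      · exact h5 (Subtype.ext h8)
    have h8 := col.valid h7
    apply h8
    change decide (col x = 0) = decide (col y = 0) at h6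
    rw [decide_eq_decide] at h6
    have key : ∀ a b : Fin 2, (a = 0 ↔ b = 0) → a = b := by decide
    exact key _ _ h6
  obtain ⟨N, hNchi, hA, hN, hf1, hf2⟩ := exists_net G hG f hf chi (by
    intro x y h h4
    apply hchi x y h
    · intro h5
      rw [h5] at h4
      omega
    · intro h5
      rw [h5] at h4
      omega)
  have hC : N.Conn3 := conn3_of G N hN h3
  -- edges of the matching with both ends of the same colour
  have hadjt : ∀ x, G.Adj x (N.tau x) := by
    intro x
    rw [← hN]
    exact Or.inr (Or.inr rfl)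
  have hmono : ∀ x, N.chi (N.tau x) = N.chi x →
      (⟨s(x, N.tau x), hadjt x⟩ : G.edgeSet) = e1 ∨
        (⟨s(x, N.tau x), hadjt x⟩ : G.edgeSet) = e2 := by
    intro x h4
    by_contra h5
    rw [not_or] at h5
    rw [hNchi] at h4
    exact hchi x _ (hadjt x) h5.1 h5.2 h4.symm
  have hedge : ∀ x y, (⟨s(x, N.tau x), hadjt x⟩ : G.edgeSet) = ⟨s(y, N.tau y), hadjt y⟩ →
      y = x ∨ y = N.tau x := by
    intro x y h4
    have h5 : s(x, N.tau x) = s(y, N.tau y) := congrArg Subtype.val h4
    rw [Sym2.eq_iff] at h5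
    rcases h5 with h5 | h5
    · exact Or.inl h5.1.symm
    · exact Or.inr h5.2.symm
  have hs : OneSource N := by
    intro x y hx hx' hy hy'
    by_contra hcon
    rw [not_or] at hcon
    -- there are no white sinks
    have hno : ∀ z, N.chi z = false → N.chi (N.tau z) = true := by
      intro z hz
      by_contra hz'
      have hz2 : N.chi (N.tau z) = false := by simpa using hz'
      have k1 := hmono x (by rw [hx, hx'])
      have k2 := hmono y (by rw [hy, hy'])
      have k3 := hmono z (by rw [hz, hz2])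
      have n1 : (⟨s(x, N.tau x), hadjt x⟩ : G.edgeSet) ≠ ⟨s(y, N.tau y), hadjt y⟩ := by
        intro h4
        exact (hedge x y h4).elim hcon.1 hcon.2
      have n2 : (⟨s(x, N.tau x), hadjt x⟩ : G.edgeSet) ≠ ⟨s(z, N.tau z), hadjt z⟩ := by
        intro h4
        rcases hedge x z h4 with h5 | h5
        · rw [h5, hx] at hz
          exact absurd hz (by decide)
        · rw [h5, hx'] at hz
          exact absurd hz (by decide)
      have n3 : (⟨s(y, N.tau y), hadjt y⟩ : G.edgeSet) ≠ ⟨s(z, N.tau z), hadjt z⟩ := by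
        intro h4
        rcases hedge y z h4 with h5 | h5
        · rw [h5, hy] at hz
          exact absurd hz (by decide)
        · rw [h5, hy'] at hz
          exact absurd hz (by decide)
      rcases k1 with k1 | k1 <;> rcases k2 with k2 | k2 <;> rcases k3 with k3 | k3
      · exact n1 (by rw [k1, k2])
      · exact n1 (by rw [k1, k2])
      · exact n2 (by rw [k1, k3])
      · exact n3 (by rw [k2, k3])
      · exact n3 (by rw [k2, k3])
      · exact n2 (by rw [k1, k3])
      · exact n1 (by rw [k1, k2])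
      · exact n1 (by rw [k1, k2])
    have hlt : #{z : V | N.chi z = false} < #{z : V | N.chi z = true} := by
      have h4 : #{z : V | N.chi z = false} ≤
          #(({z : V | N.chi z = true} : Finset V).erase x) := by
        apply card_le_card_of_injOn N.tau
        · intro z hz
          rw [mem_coe, mem_filter] at hz
          rw [mem_coe, mem_erase, mem_filter]
          refine ⟨?_, mem_univ _, hno z hz.2⟩
          intro h5
          rw [← h5, N.tau_tau, hz.2] at hx'
          exact absurd hx' (by decide)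
        · intro a _ b _ h5
          exact N.tau_inj h5
      have h5 : x ∈ ({z : V | N.chi z = true} : Finset V) := by
        rw [mem_filter]
        exact ⟨mem_univ _, hx⟩
      exact h4.trans_lt (card_erase_lt_of_mem h5)
    have h4 := card_bw N
    omega
  have h4 : 4 ≤ Fintype.card V := by
    obtain ⟨ed, hed⟩ := e1
    induction ed using Sym2.inductionOn with
    | _ x y =>
      have h5 : #({x, N.succ x, N.succ.symm x, N.tau x} : Finset V) = 4 := by
        rw [card_insert_of_notMem, card_insert_of_notMem, card_insert_of_notMem, card_singleton]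
        · rw [mem_singleton]
          exact (N.tau_ne_symm x).symm
        · rw [mem_insert, mem_singleton, not_or]
          exact ⟨N.succ_ne_symm x, (N.tau_ne_succ x).symm⟩
        · rw [mem_insert, mem_insert, mem_singleton, not_or, not_or]
          exact ⟨(N.succ_ne x).symm, (N.symm_ne x).symm, (N.tau_ne x).symm⟩
      rw [← h5]
      exact card_le_univ _
  obtain ⟨G', hG', hP'⟩ := induct hP _ V N rfl h4 hA hC hs
  refine ⟨G', ?_, hP'⟩
  rw [← hN]
  exact hG'

end Pool.Agent.HamNet
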