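import Pool.Agent.HamNet.Defs

/-!
# Flows in the digraph

`U x` means that the edge `x, succ x` of the 2-factor belongs to `U`. Assume that both ends of every
matching edge have the same `U`-degree and that matching edges whose ends have `U`-degree one are
bichromatic. If all good colourings have at most two colours then no vertex or every vertex has
`U`-degree one (`flow`).

PROOF. Darts: `V × Bool`, `(x, true)` is the edge `x, succ x` at `x` and `(x, false)` the edge
`succ.symm x, x` at `x`. `di` exchanges the two darts of an edge of the 2-factor. `dj` exchanges the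
two darts at `x` if `x` has `U`-degree `0` or `2`, otherwise it goes to the dart at `tau x` with the
same `U`-status. A proper colouring of the darts (`exists_bool`) gives a good colouring of the edges
by (status, colour of the dart at the end with `chi = true`).
-/

set_option autoImplicit false

namespace Pool.Agent.HamNet

open Finset

variable {V : Type} (N : Net V)

/-- the status of a dart -/
private def st (U : V → Bool) (d : V × Bool) : Bool :=
  if d.2 then U d.1 else U (N.succ.symm d.1)

/-- the other dart of the edge -/
private def di (d : V × Bool) : V × Bool :=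
  if d.2 then (N.succ d.1, false) else (N.succ.symm d.1, true)

/-- the next dart -/
private def dj (U : V → Bool) (d : V × Bool) : V × Bool :=
  if U d.1 = U (N.succ.symm d.1) then (d.1, !d.2)
  else (N.tau d.1, decide (U (N.tau d.1) = st N U d))

private theorem di_di (d : V × Bool) : di N (di N d) = d := by
  obtain ⟨x, b⟩ := d
  cases b <;> simp [di]

private theorem di_ne (d : V × Bool) : di N d ≠ d := by
  obtain ⟨x, b⟩ := d
  cases b <;> simp [di]

private theorem dj_dj (U : V → Bool)
    (hU : ∀ x, (U x = U (N.tau x) ∧ U (N.succ.symm x) = U (N.succ.symm (N.tau x))) ∨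
      (U x = U (N.succ.symm (N.tau x)) ∧ U (N.succ.symm x) = U (N.tau x))) (d : V × Bool) :
    dj N U (dj N U d) = d := by
  obtain ⟨x, b⟩ := d
  by_cases h : U x = U (N.succ.symm x)
  · have h1 : dj N U (x, b) = (x, !b) := if_pos h
    rw [h1]
    have h2 : dj N U (x, !b) = (x, !(!b)) := if_pos h
    rw [h2, Bool.not_not]
  · have h1 : dj N U (x, b) = (N.tau x, decide (U (N.tau x) = st N U (x, b))) := if_neg h
    have h3 : U (N.tau x) ≠ U (N.succ.symm (N.tau x)) := by
      rcases hU x with ⟨h2, h3⟩ | ⟨h2, h3⟩
      · rwa [← h2, ← h3]
      · rw [← h2, ← h3]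
        exact fun h4 => h h4.symm
    have h4 : dj N U (N.tau x, decide (U (N.tau x) = st N U (x, b))) =
        (N.tau (N.tau x), decide (U (N.tau (N.tau x)) =
          st N U (N.tau x, decide (U (N.tau x) = st N U (x, b))))) := if_neg h3
    rw [h1, h4, N.tau_tau]
    have h5 : st N U (N.tau x, decide (U (N.tau x) = st N U (x, b))) = st N U (x, b) := by
      by_cases h6 : U (N.tau x) = st N U (x, b)
      · rw [decide_eq_true h6]
        exact h6
      · rw [decide_eq_false h6]
        change U (N.succ.symm (N.tau x)) = _
        revert h3 h6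
        cases U (N.tau x) <;> cases U (N.succ.symm (N.tau x)) <;> cases st N U (x, b) <;> simp
    rw [h5]
    congr 1
    cases b
    · rw [decide_eq_false_iff_not]
      exact h
    · rw [decide_eq_true_iff]
      rfl

private theorem dj_ne (U : V → Bool) (d : V × Bool) : dj N U d ≠ d := by
  obtain ⟨x, b⟩ := d
  by_cases h : U x = U (N.succ.symm x)
  · have h1 : dj N U (x, b) = (x, !b) := if_pos h
    rw [h1]
    cases b <;> simp
  · have h1 : dj N U (x, b) = (N.tau x, decide (U (N.tau x) = st N U (x, b))) := if_neg h
    rw [h1]
    intro h2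
    exact N.tau_ne x (congrArg Prod.fst h2)

theorem flow [Fintype V] [DecidableEq V] (hN : N.AllTwo) (U : V → Bool)
    (hU : ∀ x, (U x = U (N.tau x) ∧ U (N.succ.symm x) = U (N.succ.symm (N.tau x))) ∨
      (U x = U (N.succ.symm (N.tau x)) ∧ U (N.succ.symm x) = U (N.tau x)))
    (hchi : ∀ x, U x ≠ U (N.succ.symm x) → N.chi (N.tau x) ≠ N.chi x) :
    (∀ x, U x = U (N.succ.symm x)) ∨ ∀ x, U x ≠ U (N.succ.symm x) := by
  obtain ⟨c, hc⟩ := exists_bool (di N) (dj N U) (di_di N) (dj_dj N U hU) (di_ne N) (dj_ne N U)
  -- the colour of the edge of a dart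
  let kap : V × Bool → Bool := fun d => xor (c d) (!N.chi d.1)
  have hkdi : ∀ d, kap (di N d) = kap d := by
    rintro ⟨x, b⟩
    have h1 := (hc (x, b)).1
    change xor (c (di N (x, b))) (!N.chi (di N (x, b)).1) = xor (c (x, b)) (!N.chi x)
    have h2 : N.chi (di N (x, b)).1 = !N.chi x := by
      cases b
      · exact N.chi_symm x
      · exact N.chi_succ x
    rw [h2]
    revert h1
    cases c (di N (x, b)) <;> cases c (x, b) <;> cases N.chi x <;> simp
  let col : V → Bool × Bool := fun x => (U x, kap (x, true))
  have hcol : ∀ x, col (N.succ.symm x) = (U (N.succ.symm x), kap (x, false)) := by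
    intro x
    have h1 := hkdi (x, false)
    change (U (N.succ.symm x), kap (N.succ.symm x, true)) = _
    rw [← h1]
    rfl
  have hdiff : ∀ x, U x = U (N.succ.symm x) → kap (x, true) ≠ kap (x, false) := by
    intro x h
    have h1 := (hc (x, true)).2
    have h2 : dj N U (x, true) = (x, false) := if_pos h
    rw [h2] at h1
    change xor (c (x, true)) (!N.chi x) ≠ xor (c (x, false)) (!N.chi x)
    revert h1
    cases c (x, true) <;> cases c (x, false) <;> cases N.chi x <;> simp
  have hgood : N.Good col := by
    refine ⟨fun x h => ?_, fun x => ?_⟩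
    · rw [hcol] at h
      have h1 : U (N.succ.symm x) = U x := congrArg Prod.fst h
      have h2 : kap (x, false) = kap (x, true) := congrArg Prod.snd h
      exact hdiff x h1.symm h2.symm
    · rw [hcol, hcol]
      by_cases h : U x = U (N.succ.symm x)
      · have h1 : U (N.tau x) = U x ∧ U (N.succ.symm (N.tau x)) = U x := by
          rcases hU x with ⟨h2, h3⟩ | ⟨h2, h3⟩
          · exact ⟨h2.symm, by rw [← h3, h]⟩
          · exact ⟨by rw [← h3, h], h2.symm⟩
        have h2 := hdiff x h
        have h3 := hdiff (N.tau x) (by rw [h1.1, h1.2])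
        have h4 : (kap (N.tau x, false) = kap (x, false) ∧ kap (N.tau x, true) = kap (x, true)) ∨
            (kap (N.tau x, false) = kap (x, true) ∧ kap (N.tau x, true) = kap (x, false)) := by
          revert h2 h3
          cases kap (N.tau x, false) <;> cases kap (x, false) <;> cases kap (N.tau x, true) <;>
            cases kap (x, true) <;> simp
        rcases h4 with ⟨h5, h6⟩ | ⟨h5, h6⟩
        · left
          exact ⟨Prod.ext (by rw [h1.2]; exact h) h5, Prod.ext h1.1 h6⟩
        · right
          exact ⟨Prod.ext h1.2 h5, Prod.ext (by rw [← h]; exact h1.1) h6⟩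
      · have hx := hchi x h
        -- the dart at `x` and its image have the same colour
        have hk : ∀ b, kap (N.tau x, decide (U (N.tau x) = st N U (x, b))) = kap (x, b) := by
          intro b
          have h1 := (hc (x, b)).2
          have h2 : dj N U (x, b) = (N.tau x, decide (U (N.tau x) = st N U (x, b))) := if_neg h
          rw [h2] at h1
          change xor (c (N.tau x, decide (U (N.tau x) = st N U (x, b)))) (!N.chi (N.tau x)) =
            xor (c (x, b)) (!N.chi x)
          revert h1 hx
          cases c (N.tau x, decide (U (N.tau x) = st N U (x, b))) <;> cases c (x, b) <;>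
            cases N.chi (N.tau x) <;> cases N.chi x <;> simp
        have ht := hk true
        have hf := hk false
        change kap (N.tau x, decide (U (N.tau x) = U x)) = _ at ht
        change kap (N.tau x, decide (U (N.tau x) = U (N.succ.symm x))) = _ at hf
        rcases hU x with ⟨h2, h3⟩ | ⟨h2, h3⟩
        · left
          rw [decide_eq_true h2.symm] at ht
          rw [decide_eq_false (fun h4 => h (by rw [h2, h4]))] at hf
          exact ⟨Prod.ext h3.symm hf, Prod.ext h2.symm ht⟩
        · right
          rw [decide_eq_false (fun h4 => h (by rw [← h4, h3]))] at ht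
          rw [decide_eq_true h3.symm] at hf
          exact ⟨Prod.ext h2.symm ht, Prod.ext h3.symm hf⟩
  have hle := hN.le (Encodable.encode : Bool × Bool → ℕ) Encodable.encode_injective col hgood
  by_contra hcon
  rw [not_or, not_forall, not_forall] at hcon
  obtain ⟨⟨x1, hx1⟩, ⟨x0, hx0⟩⟩ := hcon
  rw [not_not] at hx0
  have hlt : 2 < #(univ.image col) := by
    rw [two_lt_card]
    obtain ⟨x2, hx2⟩ : ∃ x2, U x2 ≠ U x0 := by
      by_cases h : U x1 = U x0
      · exact ⟨N.succ.symm x1, fun h1 => hx1 (by rw [h, h1])⟩
      · exact ⟨x1, h⟩
    refine ⟨col x0, mem_image_of_mem _ (mem_univ _), col (N.succ.symm x0),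
      mem_image_of_mem _ (mem_univ _), col x2, mem_image_of_mem _ (mem_univ _), ?_, ?_, ?_⟩
    · exact (hgood.1 x0).symm
    · intro h
      exact hx2 (congrArg Prod.fst h).symm
    · intro h
      have h1 : U (N.succ.symm x0) = U x2 := congrArg Prod.fst h
      exact hx2 (by rw [← h1, hx0])
  omega

end Pool.Agent.HamNet
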