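import Pool.Agent.HamNet.Induct
import Pool.Agent.HamWt.Final

/-!
# The net of a Hamiltonian weight

`exists_net`: a Hamiltonian weight `f` of a cubic graph `G` and a colouring `chi` of the vertices in
which all edges of weight one are bichromatic give a net with `AllTwo`.
-/

set_option autoImplicit false
set_option linter.unusedSectionVars false

namespace Pool.Agent.HamNet

open Finset SimpleGraph Pool.Agent.HamWt

variable {V : Type} [Fintype V] [DecidableEq V]

/-- The three perfect matchings: `t1`, `t2` have weight one, `m` has weight two. -/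
theorem exists_matchings (G : SimpleGraph V) [DecidableRel G.Adj] (hG : G.IsRegularOfDegree 3)
    (f : G.edgeSet → ℕ) (hf : HamiltonianWeight G f) :
    ∃ t1 t2 m : V → V, (∀ x, t1 (t1 x) = x) ∧ (∀ x, t2 (t2 x) = x) ∧ (∀ x, m (m x) = x) ∧
      (∀ x, t1 x ≠ t2 x) ∧ (∀ x, m x ≠ t1 x) ∧ (∀ x, m x ≠ t2 x) ∧
      (∀ x y, G.Adj x y ↔ y = t1 x ∨ y = t2 x ∨ y = m x) ∧
      (∀ x y (h : G.Adj x y), f ⟨s(x, y), h⟩ = 1 ↔ (y = t1 x ∨ y = t2 x)) ∧
      (∀ x y (h : G.Adj x y), f ⟨s(x, y), h⟩ = 2 ↔ y = m x) := by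
  classical
  obtain ⟨L, hL⟩ := hf.2.1
  obtain ⟨hlen, hham⟩ := hf.2.2 L hL
  obtain ⟨C1, C2, rfl⟩ := List.length_eq_two.1 hlen
  obtain ⟨W1, -, -, -, -, -, -, -, ht1⟩ := exists_word G C1.2 hG (hham C1 (by simp))
  obtain ⟨W2, -, -, -, -, -, -, -, ht2⟩ := exists_word G C2.2 hG (hham C2 (by simp))
  have hcount : ∀ e : G.edgeSet, (if (e : Sym2 V) ∈ C1.2.edges then 1 else 0) +
      (if (e : Sym2 V) ∈ C2.2.edges then 1 else 0) = f e := by
    intro e
    have h1 := hL.2 e
    rw [List.countP_cons, List.countP_cons, List.countP_nil] at h1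
    simp only [decide_eq_true_eq] at h1
    omega
  have hpos : ∀ e : G.edgeSet, (e : Sym2 V) ∈ C1.2.edges ∨ (e : Sym2 V) ∈ C2.2.edges := by
    intro e
    by_contra h
    rw [not_or] at h
    have h1 := hcount e
    rw [if_neg h.1, if_neg h.2] at h1
    rcases hf.1 e with h2 | h2 <;> omega
  have hf1 : ∀ x y (h : G.Adj x y), f ⟨s(x, y), h⟩ = 1 ↔ (y = W1.tau x ∨ y = W2.tau x) := by
    intro x y h
    have h1 := hcount ⟨s(x, y), h⟩
    have h2 := hpos ⟨s(x, y), h⟩
    rw [← ht1, ← ht2]
    by_cases h3 : s(x, y) ∈ C1.2.edges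
    · rw [if_pos h3] at h1
      by_cases h4 : s(x, y) ∈ C2.2.edges
      · rw [if_pos h4] at h1
        constructor
        · intro h5
          omega
        · rintro (⟨-, h5⟩ | ⟨-, h5⟩)
          · exact absurd h3 h5
          · exact absurd h4 h5
      · rw [if_neg h4] at h1
        exact ⟨fun _ => Or.inr ⟨h, h4⟩, fun _ => by omega⟩
    · rw [if_neg h3, if_pos (h2.resolve_left h3)] at h1
      exact ⟨fun _ => Or.inl ⟨h, h3⟩, fun _ => by omega⟩
  have hadj1 : ∀ x, G.Adj x (W1.tau x) := fun x => ((ht1 x _).2 rfl).1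
  have hadj2 : ∀ x, G.Adj x (W2.tau x) := fun x => ((ht2 x _).2 rfl).1
  have hne : ∀ x, W1.tau x ≠ W2.tau x := by
    intro x h
    have h1 := ((ht1 x _).2 rfl).2
    have h2 := ((ht2 x _).2 rfl).2
    rw [← h] at h2
    exact (hpos ⟨s(x, W1.tau x), hadj1 x⟩).elim h1 h2
  have hthird : ∀ x, ∃ z, ∀ y, (G.Adj x y ∧ y ≠ W1.tau x ∧ y ≠ W2.tau x) ↔ y = z := by
    intro x
    have h1 : #(G.neighborFinset x \ {W1.tau x, W2.tau x}) = 1 := by
      have h2 : ({W1.tau x, W2.tau x} : Finset V) ⊆ G.neighborFinset x := by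
        intro z hz
        rw [mem_insert, mem_singleton] at hz
        rw [mem_neighborFinset]
        rcases hz with rfl | rfl
        · exact hadj1 x
        · exact hadj2 x
      rw [card_sdiff_of_subset h2, card_pair (hne x), card_neighborFinset_eq_degree, hG x]
    obtain ⟨z, hz⟩ := card_eq_one.1 h1
    refine ⟨z, fun y => ?_⟩
    have h3 : y ∈ ({z} : Finset V) ↔ y = z := mem_singleton
    rw [← h3, ← hz, mem_sdiff, mem_neighborFinset, mem_insert, mem_singleton, not_or]
  choose m hm using hthird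
  have hf2 : ∀ x y (h : G.Adj x y), f ⟨s(x, y), h⟩ = 2 ↔ y = m x := by
    intro x y h
    rw [← hm]
    constructor
    · intro h1
      refine ⟨h, fun h2 => ?_, fun h2 => ?_⟩
      · have h3 := (hf1 x y h).2 (Or.inl h2)
        omega
      · have h3 := (hf1 x y h).2 (Or.inr h2)
        omega
    · rintro ⟨-, h1, h2⟩
      refine (hf.1 _).resolve_left (fun h3 => ?_)
      exact ((hf1 x y h).1 h3).elim h1 h2
  refine ⟨W1.tau, W2.tau, m, W1.tau_tau, W2.tau_tau, ?_, hne, ?_, ?_, ?_, hf1, hf2⟩
  · intro x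
    have h1 : G.Adj x (m x) := ((hm x _).2 rfl).1
    have h2 := (hf2 x (m x) h1).2 rfl
    symm
    rw [← hf2 (m x) x h1.symm]
    rw [← h2]
    congr 1
    apply Subtype.ext
    exact Sym2.eq_swap
  · exact fun x => ((hm x _).2 rfl).2.1
  · exact fun x => ((hm x _).2 rfl).2.2
  · intro x y
    constructor
    · intro h
      by_cases h1 : y = W1.tau x
      · exact Or.inl h1
      · by_cases h2 : y = W2.tau x
        · exact Or.inr (Or.inl h2)
        · exact Or.inr (Or.inr ((hm x y).1 ⟨h, h1, h2⟩))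
    · rintro (h | h | h)
      · rw [h]
        exact hadj1 x
      · rw [h]
        exact hadj2 x
      · rw [h]
        exact ((hm x _).2 rfl).1

theorem exists_net (G : SimpleGraph V) [DecidableRel G.Adj] (hG : G.IsRegularOfDegree 3)
    (f : G.edgeSet → ℕ) (hf : HamiltonianWeight G f) (chi : V → Bool)
    (hchi : ∀ x y (h : G.Adj x y), f ⟨s(x, y), h⟩ = 1 → chi x ≠ chi y) :
    ∃ N : Net V, N.chi = chi ∧ N.AllTwo ∧ N.graph = G ∧
      (∀ x y (h : G.Adj x y), f ⟨s(x, y), h⟩ = 1 ↔ (y = N.succ x ∨ y = N.succ.symm x)) ∧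
      (∀ x y (h : G.Adj x y), f ⟨s(x, y), h⟩ = 2 ↔ y = N.tau x) := by
  obtain ⟨t1, t2, m, h1, h2, h3, h4, h5, h6, hadj, hf1, hf2⟩ := exists_matchings G hG f hf
  have a1 : ∀ x, G.Adj x (t1 x) := fun x => (hadj x _).2 (Or.inl rfl)
  have a2 : ∀ x, G.Adj x (t2 x) := fun x => (hadj x _).2 (Or.inr (Or.inl rfl))
  have a3 : ∀ x, G.Adj x (m x) := fun x => (hadj x _).2 (Or.inr (Or.inr rfl))
  have c1 : ∀ x, chi (t1 x) = !chi x := by
    intro x
    have := hchi x (t1 x) (a1 x) ((hf1 _ _ _).2 (Or.inl rfl))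
    revert this
    cases chi x <;> cases chi (t1 x) <;> simp
  have c2 : ∀ x, chi (t2 x) = !chi x := by
    intro x
    have := hchi x (t2 x) (a2 x) ((hf1 _ _ _).2 (Or.inr rfl))
    revert this
    cases chi x <;> cases chi (t2 x) <;> simp
  let sc : Equiv.Perm V :=
    { toFun := fun x => if chi x then t1 x else t2 x
      invFun := fun x => if chi x then t2 x else t1 x
      left_inv := by
        intro x
        by_cases h : chi x = true
        · have h' : chi (t1 x) = false := by rw [c1, h]; rfl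
          simp [h, h', h1]
        · have h' : chi x = false := by simpa using h
          have h'' : chi (t2 x) = true := by rw [c2, h']; rfl
          simp [h', h'', h2]
      right_inv := by
        intro x
        by_cases h : chi x = true
        · have h' : chi (t2 x) = false := by rw [c2, h]; rfl
          simp [h, h', h2]
        · have h' : chi x = false := by simpa using h
          have h'' : chi (t1 x) = true := by rw [c1, h']; rfl
          simp [h', h'', h1] }
  have hsc : ∀ x, (sc x = t1 x ∧ sc.symm x = t2 x) ∨ (sc x = t2 x ∧ sc.symm x = t1 x) := by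
    intro x
    by_cases h : chi x = true
    · left
      exact ⟨if_pos h, if_pos h⟩
    · right
      exact ⟨if_neg h, if_neg h⟩
  let N : Net V :=
    { succ := sc
      tau := m
      chi := chi
      tau_tau := h3
      tau_ne := fun x => (a3 x).ne'
      succ_ne_symm := fun x => by
        rcases hsc x with ⟨e1, e2⟩ | ⟨e1, e2⟩
        · rw [e1, e2]
          exact h4 x
        · rw [e1, e2]
          exact (h4 x).symm
      tau_ne_succ := fun x => by
        rcases hsc x with ⟨e1, e2⟩ | ⟨e1, e2⟩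
        · rw [e1]
          exact h5 x
        · rw [e1]
          exact h6 x
      tau_ne_symm := fun x => by
        rcases hsc x with ⟨e1, e2⟩ | ⟨e1, e2⟩
        · rw [e2]
          exact h6 x
        · rw [e2]
          exact h5 x
      chi_succ := fun x => by
        rcases hsc x with ⟨e1, e2⟩ | ⟨e1, e2⟩
        · rw [e1]
          exact c1 x
        · rw [e1]
          exact c2 x }
  have hN : ∀ x y, (y = sc x ∨ y = sc.symm x) ↔ (y = t1 x ∨ y = t2 x) := by
    intro x y
    rcases hsc x with ⟨e1, e2⟩ | ⟨e1, e2⟩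
    · rw [e1, e2]
    · rw [e1, e2]
      exact or_comm
  refine ⟨N, rfl, ?_, ?_, ?_, hf2⟩
  · intro c hc
    have hadj' : ∀ x, G.Adj x (sc x) := by
      intro x
      rcases hsc x with ⟨e1, e2⟩ | ⟨e1, e2⟩
      · rw [e1]
        exact a1 x
      · rw [e1]
        exact a2 x
    obtain ⟨L, hL1, hL2, hL3, hL4⟩ := local_cover G sc m hadj' a3 h3 N.succ_ne_symm
      N.tau_ne_succ N.tau_ne_symm c hc.1 hc.2
    have hcov : Covers G f L := by
      refine ⟨hL1, ?_⟩
      rintro ⟨ed, hed⟩
      induction ed using Sym2.inductionOn with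
      | _ x y =>
        have hxy : G.Adj x y := hed
        rcases hf.1 ⟨s(x, y), hed⟩ with h7 | h7
        · rw [h7]
          have h8 := (hN x y).2 ((hf1 x y hxy).1 h7)
          rcases h8 with h8 | h8
          · rw [← hL2 x, ← h8]
          · have h9 : x = sc y := by rw [h8, Equiv.apply_symm_apply]
            rw [← hL2 y, ← h9]
            simp only [Sym2.eq_swap (a := x) (b := y)]
        · rw [h7]
          have h8 := (hf2 x y hxy).1 h7
          rw [← hL3 x, ← h8]
    have h9 := (hf.2.2 L hcov).1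
    omega
  · ext x y
    rw [graph_adj, hadj, ← or_assoc, ← or_assoc]
    change ((y = sc x ∨ y = sc.symm x) ∨ y = m x) ↔ _
    rw [hN]
  · intro x y h
    rw [hf1]
    exact (hN x y).symm

/-- Vertex connectivity gives `Conn3`. -/
theorem conn3_of (G : SimpleGraph V) (N : Net V) (hN : N.graph = G)
    (hconn : ∀ S : Finset V, S.card ≤ 2 → (G.induce ((S : Set V)ᶜ)).Connected) : N.Conn3 := by
  intro S hne huniv
  by_contra hlt
  rw [not_le] at hlt
  let B : Finset (V × Fin 3) := {z : V × Fin 3 | z.1 ∈ S ∧ N.nb z.2 z.1 ∉ S}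
  have hB : ∀ a i, a ∈ S → N.nb i a ∉ S → (a, i) ∈ B := by
    intro a i h1 h2
    change _ ∈ filter _ _
    rw [mem_filter]
    exact ⟨mem_univ _, h1, h2⟩
  have hB2 : #B ≤ 2 := by
    change #B < 3 at hlt
    omega
  let T : Finset V := B.image Prod.fst
  have hT2 : #T ≤ 2 := card_image_le.trans hB2
  have hTS : T ⊆ S := by
    intro x hx
    rw [mem_image] at hx
    obtain ⟨z, hz, rfl⟩ := hx
    rw [mem_filter] at hz
    exact hz.2.1
  have hnbadj : ∀ a b, N.graph.Adj a b → ∃ i, N.nb i a = b := by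
    intro a b h
    rw [graph_adj] at h
    rcases h with h | h | h
    · exact ⟨0, by rw [nb_zero, h]⟩
    · exact ⟨1, by rw [nb_one, h]⟩
    · exact ⟨2, by rw [nb_two, h]⟩
  have hST : S ⊆ T := by
    intro x hx
    by_contra hxT
    obtain ⟨y, hy⟩ : ∃ y, y ∉ S := by
      by_contra h
      push Not at h
      exact huniv (eq_univ_iff_forall.2 h)
    have hyT : y ∉ T := fun h => hy (hTS h)
    have hc := hconn T hT2
    have hr : (G.induce ((T : Set V)ᶜ)).Reachable ⟨x, hxT⟩ ⟨y, hyT⟩ := hc.preconnected _ _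
    obtain ⟨p⟩ := hr
    have key : ∀ (a b : ((T : Set V)ᶜ : Set V)) (q : (G.induce ((T : Set V)ᶜ)).Walk a b),
        a.1 ∈ S → b.1 ∈ S := by
      intro a b q
      induction q with
      | nil => exact fun h => h
      | @cons a b c hab q ih =>
        intro ha
        apply ih
        by_contra hb
        have h1 : N.graph.Adj a.1 b.1 := by
          rw [hN]
          exact hab
        obtain ⟨i, hi⟩ := hnbadj _ _ h1
        have h2 : (a.1, i) ∈ B := hB _ _ ha (by rw [hi]; exact hb)
        exact a.2 (mem_image_of_mem Prod.fst h2)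
    exact hy (key _ _ p hx)
  have hSc : #S ≤ 2 := (card_le_card hST).trans hT2
  have hnbinj : ∀ a, Function.Injective (fun i => N.nb i a) := by
    intro a i j h
    have d1 := N.succ_ne_symm a
    have d2 := N.tau_ne_succ a
    have d3 := N.tau_ne_symm a
    change N.nb i a = N.nb j a at h
    fin_cases i <;> fin_cases j
    · rfl
    · exact absurd h d1
    · exact absurd h d2.symm
    · exact absurd h d1.symm
    · rfl
    · exact absurd h d3.symm
    · exact absurd h d2
    · exact absurd h d3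
    · rfl
  have hnbne : ∀ a i, N.nb i a ≠ a := by
    intro a i
    fin_cases i
    · exact N.succ_ne a
    · exact N.symm_ne a
    · exact N.tau_ne a
  -- darts at a vertex of S which leave S
  have hdart : ∀ a ∈ S, 3 ≤ #({i : Fin 3 | N.nb i a ∉ S} : Finset (Fin 3)) + (#S - 1) := by
    intro a ha
    have h1 : #({i : Fin 3 | N.nb i a ∈ S} : Finset (Fin 3)) ≤ #(S.erase a) := by
      apply card_le_card_of_injOn (fun i => N.nb i a)
      · intro i hi
        rw [mem_coe, mem_filter] at hi
        rw [mem_coe, mem_erase]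
        exact ⟨hnbne a i, hi.2⟩
      · exact (hnbinj a).injOn
    rw [card_erase_of_mem ha] at h1
    have h2 := card_filter_add_card_filter_not (s := (univ : Finset (Fin 3)))
      (fun i => N.nb i a ∈ S)
    rw [card_univ, Fintype.card_fin] at h2
    omega
  have hle : ∀ a ∈ S, #({i : Fin 3 | N.nb i a ∉ S} : Finset (Fin 3)) ≤
      #({z ∈ B | z.1 = a} : Finset (V × Fin 3)) := by
    intro a ha
    apply card_le_card_of_injOn (fun i => (a, i))
    · intro i hi
      rw [mem_coe, mem_filter] at hi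
      rw [mem_coe, mem_filter]
      exact ⟨hB a i ha hi.2, rfl⟩
    · intro i _ j _ h
      exact congrArg Prod.snd h
  have hsum : #B = ∑ a ∈ S, #({z ∈ B | z.1 = a} : Finset (V × Fin 3)) := by
    apply card_eq_sum_card_fiberwise
    intro z hz
    rw [mem_coe] at hz ⊢
    rw [mem_filter] at hz
    exact hz.2.1
  have hge : #S * (4 - #S) ≤ #B := by
    rw [hsum, ← smul_eq_mul]
    apply card_nsmul_le_sum
    intro a ha
    have h1 := hdart a ha
    have h2 := hle a ha
    have h3 : 0 < #S := card_pos.2 ⟨a, ha⟩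
    omega
  have h1 : 0 < #S := card_pos.2 hne
  interval_cases #S <;> omega

end Pool.Agent.HamNet
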