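import Pool.Agent.HamNet.Flow

/-!
# Directed cycles, triangles

Edges of the 2-factor are directed from `chi = true` to `chi = false`. The bichromatic matching
edges (`W y`: the end `y` with `chi y = false`) have in-degree and out-degree two. `dir`: choose for
every `y` with `W y` a predecessor `hh y` of the same kind; the periodic points of `hh` form
directed cycles, and `flow` shows that they exhaust everything. `not_all`: some matching edge is
monochromatic.
`tri`: if at most one matching edge has `chi = true` at both ends, and some matching edge is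
bichromatic, then there is a triangle.
-/

set_option autoImplicit false

namespace Pool.Agent.HamNet

open Finset Function

variable {V : Type} (N : Net V)

theorem dir [Fintype V] [DecidableEq V] (hN : N.AllTwo) (hh : V → V)
    (hW : ∀ y, N.chi y = false → N.chi (N.tau y) = true → N.chi (hh y) = false ∧
      (N.tau (hh y) = N.succ y ∨ N.tau (hh y) = N.succ.symm y))
    {y0 : V} (h0 : N.chi y0 = false) (h0' : N.chi (N.tau y0) = true) :
    (∀ x, N.chi (N.tau x) ≠ N.chi x) ∧ ∀ z, N.chi z = false → ∃ y, N.chi y = false ∧ hh y = z := by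
  classical
  let W : V → Prop := fun y => N.chi y = false ∧ N.chi (N.tau y) = true
  have hWW : ∀ y, W y → W (hh y) := by
    rintro y ⟨h1, h2⟩
    obtain ⟨h3, h4⟩ := hW y h1 h2
    refine ⟨h3, ?_⟩
    rcases h4 with h4 | h4
    · rw [h4, N.chi_succ, h1]
      rfl
    · rw [h4, N.chi_symm, h1]
      rfl
  have hWit : ∀ n y, W y → W (hh^[n] y) := by
    intro n
    induction n with
    | zero => exact fun y h => h
    | succ n ih =>
      intro y h
      rw [iterate_succ_apply']
      exact hWW _ (ih y h)
  let C : V → Prop := fun y => W y ∧ y ∈ periodicPts hh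
  have hC1 : ∀ y, C y → C (hh y) := by
    rintro y ⟨h1, h2⟩
    refine ⟨hWW y h1, ?_⟩
    obtain ⟨n, hn, h3⟩ := h2
    exact ⟨n, hn, h3.apply⟩
  have hC2 : ∀ z, C z → ∃ y, C y ∧ hh y = z := by
    rintro z ⟨h1, h2⟩
    obtain ⟨n, hn, h3⟩ := h2
    refine ⟨hh^[n - 1] z, ⟨hWit _ _ h1, ?_⟩, ?_⟩
    · exact ⟨n, hn, h3.apply_iterate _⟩
    · have h4 : n - 1 + 1 = n := by omega
      have h5 := iterate_succ_apply' hh (n - 1) z
      rw [← h5]
      change hh^[n - 1 + 1] z = z
      rw [h4]
      exact h3
  have hinj : ∀ y z, C y → C z → hh y = hh z → y = z := by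
    rintro y z ⟨-, h1⟩ ⟨-, h2⟩ h3
    exact (bijOn_periodicPts hh).injOn h1 h2 h3
  obtain ⟨z0, hz0⟩ : ∃ z, C z := by
    obtain ⟨m, n, hmn, h1⟩ := Finite.exists_ne_map_eq_of_infinite (fun n : ℕ => hh^[n] y0)
    wlog hlt : m < n generalizing m n
    · exact this n m hmn.symm h1.symm (by omega)
    refine ⟨hh^[m] y0, hWit _ _ ⟨h0, h0'⟩, n - m, by omega, ?_⟩
    change hh^[n - m] (hh^[m] y0) = hh^[m] y0
    rw [← iterate_add_apply, Nat.sub_add_cancel hlt.le]
    exact h1.symm
  have hCt : ∀ y, C y → N.tau (hh y) = N.succ y ∨ N.tau (hh y) = N.succ.symm y :=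
    fun y h => (hW y h.1.1 h.1.2).2
  let U : V → Bool := fun x => decide ((C x ∧ N.succ x = N.tau (hh x)) ∨
    (C (N.succ x) ∧ x = N.tau (hh (N.succ x))))
  have hU1 : ∀ x, U x = true ↔ (C x ∧ N.succ x = N.tau (hh x)) ∨
      (C (N.succ x) ∧ x = N.tau (hh (N.succ x))) := fun x => decide_eq_true_iff
  have hU2 : ∀ x, U (N.succ.symm x) = true ↔
      (C (N.succ.symm x) ∧ x = N.tau (hh (N.succ.symm x))) ∨
      (C x ∧ N.succ.symm x = N.tau (hh x)) := by
    intro x
    rw [hU1, Equiv.apply_symm_apply]
  have hCb : ∀ x, N.chi x = true → ¬ C x := fun x h1 h2 => by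
    have := h2.1.1
    rw [h1] at this
    exact absurd this (by decide)
  -- touched vertices
  have ht : ∀ x, (C x ∨ C (N.tau x)) → U x ≠ U (N.succ.symm x) := by
    intro x h
    by_cases hx : N.chi x = true
    · have h1 : ¬ C x := hCb x hx
      have h2 : C (N.tau x) := h.resolve_left h1
      obtain ⟨y, hy, hyx⟩ := hC2 _ h2
      have h3 := hCt y hy
      rw [hyx, N.tau_tau] at h3
      have h4 : U x = true ↔ C (N.succ x) ∧ x = N.tau (hh (N.succ x)) := by
        rw [hU1]
        constructor
        · rintro (h5 | h5)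
          · exact absurd h5.1 h1
          · exact h5
        · exact Or.inr
      have h5 : U (N.succ.symm x) = true ↔
          C (N.succ.symm x) ∧ x = N.tau (hh (N.succ.symm x)) := by
        rw [hU2]
        constructor
        · rintro (h5 | h5)
          · exact h5
          · exact absurd h5.1 h1
        · exact Or.inl
      rcases h3 with h3 | h3
      · have e1 : y = N.succ.symm x := by rw [h3, Equiv.symm_apply_apply]
        have e2 : U (N.succ.symm x) = true := by
          rw [h5, ← e1, hyx, N.tau_tau]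
          exact ⟨hy, rfl⟩
        rw [e2]
        intro e3
        obtain ⟨e4, e5⟩ := h4.1 e3
        have e6 : hh (N.succ x) = hh y := by
          rw [hyx]
          exact N.tau_inj (by rw [N.tau_tau, ← e5])
        have e7 := hinj _ _ e4 hy e6
        rw [e1] at e7
        exact N.succ_ne_symm x e7
      · have e1 : y = N.succ x := by rw [h3, Equiv.apply_symm_apply]
        have e2 : U x = true := by
          rw [h4, ← e1, hyx, N.tau_tau]
          exact ⟨hy, rfl⟩
        rw [e2]
        intro e3
        obtain ⟨e4, e5⟩ := h5.1 e3.symm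
        have e6 : hh (N.succ.symm x) = hh y := by
          rw [hyx]
          exact N.tau_inj (by rw [N.tau_tau, ← e5])
        have e7 := hinj _ _ e4 hy e6
        rw [e1] at e7
        exact N.succ_ne_symm x e7.symm
    · have hx' : N.chi x = false := by simpa using hx
      have h1 : ¬ C (N.tau x) := by
        rintro ⟨⟨-, h2⟩, -⟩
        rw [N.tau_tau] at h2
        exact hx h2
      have h2 : C x := h.resolve_right h1
      have h3 := hCt x h2
      rcases h3 with h3 | h3
      · have e2 : U x = true := (hU1 x).2 (Or.inl ⟨h2, h3.symm⟩)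
        rw [e2]
        intro e3
        rcases (hU2 x).1 e3.symm with ⟨e4, -⟩ | ⟨-, e4⟩
        · exact hCb _ (by rw [N.chi_symm, hx']; rfl) e4
        · rw [h3] at e4
          exact N.succ_ne_symm x e4.symm
      · have e2 : U (N.succ.symm x) = true := (hU2 x).2 (Or.inr ⟨h2, h3.symm⟩)
        rw [e2]
        intro e3
        rcases (hU1 x).1 e3 with ⟨-, e4⟩ | ⟨e4, -⟩
        · rw [h3] at e4
          exact N.succ_ne_symm x e4
        · exact hCb _ (by rw [N.chi_succ, hx']; rfl) e4
  have hnt : ∀ x, ¬ (C x ∨ C (N.tau x)) → U x = false ∧ U (N.succ.symm x) = false := by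
    intro x h
    rw [not_or] at h
    have key : ∀ y, C y → x ≠ N.tau (hh y) := by
      intro y hy e
      have e1 := hC1 y hy
      have e2 : N.tau x = hh y := by rw [e, N.tau_tau]
      rw [← e2] at e1
      exact h.2 e1
    constructor
    · rw [← Bool.not_eq_true, hU1]
      rintro (⟨e1, -⟩ | ⟨e1, e2⟩)
      · exact h.1 e1
      · exact key _ e1 e2
    · rw [← Bool.not_eq_true, hU2]
      rintro (⟨e1, e2⟩ | ⟨e1, -⟩)
      · exact key _ e1 e2
      · exact h.1 e1
  have hmain := flow N hN U (by
    intro x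
    by_cases h : C x ∨ C (N.tau x)
    · have h1 := ht x h
      have h2 := ht (N.tau x) (by rw [N.tau_tau]; exact h.symm)
      revert h1 h2
      cases U x <;> cases U (N.succ.symm x) <;> cases U (N.tau x) <;>
        cases U (N.succ.symm (N.tau x)) <;> simp
    · have h1 := hnt x h
      have h2 := hnt (N.tau x) (by rw [N.tau_tau]; exact fun h3 => h h3.symm)
      left
      rw [h1.1, h1.2, h2.1, h2.2]
      exact ⟨rfl, rfl⟩) (by
    intro x h
    have h1 : C x ∨ C (N.tau x) := by
      by_contra h2
      have h3 := hnt x h2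
      exact h (by rw [h3.1, h3.2])
    rcases h1 with ⟨⟨h2, h3⟩, -⟩ | ⟨⟨h2, h3⟩, -⟩
    · rw [h2, h3]
      decide
    · rw [N.tau_tau] at h3
      rw [h2, h3]
      decide)
  rcases hmain with h | h
  · exact absurd (h z0) (ht z0 (Or.inl hz0))
  · have hall : ∀ x, C x ∨ C (N.tau x) := by
      intro x
      by_contra h2
      have h3 := hnt x h2
      exact h x (by rw [h3.1, h3.2])
    constructor
    · intro x
      rcases hall x with ⟨⟨h2, h3⟩, -⟩ | ⟨⟨h2, h3⟩, -⟩
      · rw [h2, h3]
        decide
      · rw [N.tau_tau] at h3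
        rw [h2, h3]
        decide
    · intro z hz
      rcases hall z with h2 | ⟨⟨-, h2⟩, -⟩
      · obtain ⟨y, hy, hyz⟩ := hC2 z h2
        exact ⟨y, hy.1.1, hyz⟩
      · rw [N.tau_tau, hz] at h2
        exact absurd h2 (by decide)

/-- Some matching edge is monochromatic. -/
theorem not_all [Fintype V] [DecidableEq V] [Nonempty V] (hN : N.AllTwo) :
    ¬ ∀ x, N.chi (N.tau x) ≠ N.chi x := by
  intro h
  obtain ⟨y0, h0⟩ : ∃ y, N.chi y = false := by
    obtain ⟨x⟩ := ‹Nonempty V›
    by_cases hx : N.chi x = true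
    · exact ⟨N.succ x, by rw [N.chi_succ, hx]; rfl⟩
    · exact ⟨x, by simpa using hx⟩
  have hb : ∀ y, N.chi y = true → N.chi (N.tau y) = false := by
    intro y hy
    have := h y
    rw [hy] at this
    simpa using this
  have h0' : N.chi (N.tau y0) = true := by
    have := h y0
    rw [h0] at this
    simpa using this
  have h1 := (dir N hN (fun y => if y = y0 then N.tau (N.succ.symm y0) else N.tau (N.succ y)) (by
    intro y hy _
    by_cases hyy : y = y0
    · rw [if_pos hyy, N.tau_tau, hyy]
      exact ⟨hb _ (by rw [N.chi_symm, h0]; rfl), Or.inr rfl⟩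
    · rw [if_neg hyy, N.tau_tau]
      exact ⟨hb _ (by rw [N.chi_succ, hy]; rfl), Or.inl rfl⟩) h0 h0').2
    (N.tau (N.succ y0)) (hb _ (by rw [N.chi_succ, h0]; rfl))
  obtain ⟨y, -, hy⟩ := h1
  by_cases hyy : y = y0
  · rw [if_pos hyy] at hy
    exact N.succ_ne_symm y0 (N.tau_inj hy).symm
  · rw [if_neg hyy] at hy
    exact hyy (N.succ.injective (N.tau_inj hy))

/-- A triangle. -/
theorem tri [Fintype V] [DecidableEq V] (hN : N.AllTwo)
    (hs : ∀ x y, N.chi x = true → N.chi (N.tau x) = true → N.chi y = true →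
      N.chi (N.tau y) = true → y = x ∨ y = N.tau x)
    (hi : ∃ x, N.chi x = false ∧ N.chi (N.tau x) = true) :
    ∃ y, N.chi y = false ∧ N.tau (N.succ y) = N.succ.symm y := by
  obtain ⟨y0, h0, h0'⟩ := hi
  by_contra hcon
  push Not at hcon
  have : Nonempty V := ⟨y0⟩
  refine not_all N hN (dir N hN (fun y => if N.chi (N.tau (N.succ y)) = false then
    N.tau (N.succ y) else N.tau (N.succ.symm y)) ?_ h0 h0').1
  intro y hy hy'
  by_cases h1 : N.chi (N.tau (N.succ y)) = false
  · rw [if_pos h1, N.tau_tau]
    exact ⟨h1, Or.inl rfl⟩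
  · rw [if_neg h1, N.tau_tau]
    refine ⟨?_, Or.inr rfl⟩
    by_contra h2
    have e1 : N.chi (N.succ y) = true := by rw [N.chi_succ, hy]; rfl
    have e2 : N.chi (N.succ.symm y) = true := by rw [N.chi_symm, hy]; rfl
    rcases hs _ _ e1 (by simpa using h1) e2 (by simpa using h2) with h3 | h3
    · exact N.succ_ne_symm y h3.symm
    · exact hcon y hy h3.symm

end Pool.Agent.HamNet
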