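import Pool.Agent.HamNet.Conn
import Pool.Agent.HamNet.Tri

/-!
# Nets with at most one source arise from the complete graph on four vertices

`induct`: if `N` has at most one matching edge with both ends `chi = true`, all good colourings
use at most two colours, and `Conn3` holds, then the cubic graph of `N` belongs to every class `P`
which contains the complete graph on four vertices and is closed under the replacement of a vertex
by a triangle.
-/

set_option autoImplicit false
set_option linter.unusedSectionVars false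

namespace Pool.Agent.HamNet

open Finset

/-- `H` arises from `G₀` by the replacement of a vertex by a triangle (the words of the problem). -/
def Expands {n : ℕ} (G₀ : SimpleGraph (Fin n)) (H : SimpleGraph (Fin (n + 2))) : Prop :=
  ∃ a b c : Fin (n + 2), H.Adj a b ∧ H.Adj b c ∧ H.Adj a c ∧
    ∃ φ : Fin (n + 2) → Fin n, Function.Surjective φ ∧ φ a = φ b ∧ φ b = φ c ∧
      (∀ x y, φ x = φ y → x = y ∨ φ x = φ a) ∧
      (∀ u v, G₀.Adj u v ↔ (u ≠ v ∧ ∃ x y, φ x = u ∧ φ y = v ∧ H.Adj x y))

/-- `P` contains `K4` and is closed under the replacement of a vertex by a triangle. -/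
def Closed (P : (n : ℕ) → SimpleGraph (Fin n) → Prop) : Prop :=
  P 4 ⊤ ∧ ∀ (n : ℕ) (G₀ : SimpleGraph (Fin n)) (H : SimpleGraph (Fin (n + 2))),
    P n G₀ → (∀ v, (H.neighborSet v).ncard = 3) → Expands G₀ H → P (n + 2) H

theorem step {P : (n : ℕ) → SimpleGraph (Fin n) → Prop} (hP : Closed P) {V W : Type}
    [Fintype V] {m : ℕ} (hV : Fintype.card V = m + 2) (G : SimpleGraph V) (G₀ : SimpleGraph W)
    (G1 : SimpleGraph (Fin m)) (e : G₀ ≃g G1) (h1 : P m G1)
    (hcub : ∀ v, (G.neighborSet v).ncard = 3) (a b c : V) (hab : G.Adj a b) (hbc : G.Adj b c)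
    (hac : G.Adj a c) (φ : V → W) (hs : Function.Surjective φ) (h2 : φ a = φ b)
    (h3 : φ b = φ c) (h4 : ∀ x y, φ x = φ y → x = y ∨ φ x = φ a)
    (h5 : ∀ u v, G₀.Adj u v ↔ (u ≠ v ∧ ∃ x y, φ x = u ∧ φ y = v ∧ G.Adj x y)) :
    ∃ G' : SimpleGraph (Fin (m + 2)), Nonempty (G ≃g G') ∧ P (m + 2) G' := by
  let H := G.overFin hV
  let i : G ≃g H := G.overFinIso hV
  refine ⟨H, ⟨i⟩, hP.2 m G1 H h1 ?_ ?_⟩
  · intro v
    have e1 : H.neighborSet v = i '' G.neighborSet (i.symm v) := by
      ext w
      constructor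
      · intro hw
        refine ⟨i.symm w, ?_, i.apply_symm_apply w⟩
        rw [SimpleGraph.mem_neighborSet] at hw ⊢
        exact (i.symm.map_adj_iff).2 hw
      · rintro ⟨w', hw', rfl⟩
        rw [SimpleGraph.mem_neighborSet] at hw' ⊢
        have := (i.map_adj_iff).2 hw'
        rwa [i.apply_symm_apply] at this
    rw [e1, Set.ncard_image_of_injective _ i.injective]
    exact hcub _
  · refine ⟨i a, i b, i c, i.map_adj_iff.2 hab, i.map_adj_iff.2 hbc, i.map_adj_iff.2 hac,
      fun x => e (φ (i.symm x)), ?_, ?_, ?_, ?_, ?_⟩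
    · intro z
      obtain ⟨x, hx⟩ := hs (e.symm z)
      refine ⟨i x, ?_⟩
      change e (φ (i.symm (i x))) = z
      rw [i.symm_apply_apply, hx, e.apply_symm_apply]
    · change e (φ (i.symm (i a))) = e (φ (i.symm (i b)))
      rw [i.symm_apply_apply, i.symm_apply_apply, h2]
    · change e (φ (i.symm (i b))) = e (φ (i.symm (i c)))
      rw [i.symm_apply_apply, i.symm_apply_apply, h3]
    · intro x y hxy
      have h6 := h4 _ _ (e.injective hxy)
      rcases h6 with h6 | h6
      · left
        exact i.symm.injective h6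
      · right
        change e (φ (i.symm x)) = e (φ (i.symm (i a)))
        rw [h6, i.symm_apply_apply]
    · intro u v
      rw [← e.symm.map_adj_iff, h5]
      constructor
      · rintro ⟨h6, x, y, hx, hy, hxy⟩
        refine ⟨fun h7 => h6 (by rw [h7]), i x, i y, ?_, ?_, i.map_adj_iff.2 hxy⟩
        · change e (φ (i.symm (i x))) = u
          rw [i.symm_apply_apply, hx, e.apply_symm_apply]
        · change e (φ (i.symm (i y))) = v
          rw [i.symm_apply_apply, hy, e.apply_symm_apply]
      · rintro ⟨h6, x, y, hx, hy, hxy⟩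
        refine ⟨fun h7 => h6 (e.symm.injective h7), i.symm x, i.symm y, ?_, ?_,
          i.symm.map_adj_iff.2 hxy⟩
        · rw [← hx, e.symm_apply_apply]
        · rw [← hy, e.symm_apply_apply]

variable {V : Type} [Fintype V] [DecidableEq V]

/-- The neighbours of a vertex. -/
theorem graph_adj (N : Net V) (x z : V) :
    N.graph.Adj x z ↔ z = N.succ x ∨ z = N.succ.symm x ∨ z = N.tau x := by
  change (z = N.succ x ∨ x = N.succ z ∨ z = N.tau x) ↔ _
  rw [Equiv.eq_symm_apply, eq_comm (a := N.succ z)]

theorem graph_cubic (N : Net V) (x : V) : (N.graph.neighborSet x).ncard = 3 := by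
  have h1 : N.graph.neighborSet x = {N.succ x, N.succ.symm x, N.tau x} := by
    ext z
    rw [SimpleGraph.mem_neighborSet, graph_adj]
    simp
  rw [h1, Set.ncard_eq_three]
  exact ⟨_, _, _, N.succ_ne_symm x, (N.tau_ne_succ x).symm, (N.tau_ne_symm x).symm, rfl⟩

theorem graph_four (N : Net V) (hV : Fintype.card V = 4) (x z : V) (h : x ≠ z) :
    N.graph.Adj x z := by
  rw [graph_adj]
  have h1 : #({x, N.succ x, N.succ.symm x, N.tau x} : Finset V) = 4 := by
    rw [card_insert_of_notMem, card_insert_of_notMem, card_insert_of_notMem, card_singleton]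
    · rw [mem_singleton]
      exact (N.tau_ne_symm x).symm
    · rw [mem_insert, mem_singleton, not_or]
      exact ⟨N.succ_ne_symm x, (N.tau_ne_succ x).symm⟩
    · rw [mem_insert, mem_insert, mem_singleton, not_or, not_or]
      exact ⟨(N.succ_ne x).symm, (N.symm_ne x).symm, (N.tau_ne x).symm⟩
  have h2 : ({x, N.succ x, N.succ.symm x, N.tau x} : Finset V) = univ := by
    rw [← card_eq_iff_eq_univ, h1, hV]
  have h3 : z ∈ ({x, N.succ x, N.succ.symm x, N.tau x} : Finset V) := by
    rw [h2]
    exact mem_univ z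
  rw [mem_insert, mem_insert, mem_insert, mem_singleton] at h3
  exact h3.resolve_left h.symm

/-- As many black as white vertices. -/
theorem card_bw (N : Net V) : #{x : V | N.chi x = true} = #{x : V | N.chi x = false} := by
  apply card_bij (fun x _ => N.succ x)
  · intro x hx
    rw [mem_filter] at hx ⊢
    exact ⟨mem_univ _, by rw [N.chi_succ, hx.2]; rfl⟩
  · intro x _ z _ h
    exact N.succ.injective h
  · intro z hz
    rw [mem_filter] at hz
    refine ⟨N.succ.symm z, ?_, N.succ.apply_symm_apply z⟩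
    rw [mem_filter]
    exact ⟨mem_univ _, by rw [N.chi_symm, hz.2]; rfl⟩

theorem card_two (N : Net V) : Fintype.card V = 2 * #{x : V | N.chi x = true} := by
  have h1 := card_bw N
  have h2 := card_filter_add_card_filter_not (s := (univ : Finset V)) (fun x => N.chi x = true)
  rw [card_univ] at h2
  have h3 : ({x : V | ¬ N.chi x = true} : Finset V) = ({x : V | N.chi x = false} : Finset V) := by
    ext x
    simp
  rw [h3, ← h1] at h2
  omega

/-- At most one source. -/
def OneSource (N : Net V) : Prop :=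
  ∀ x y, N.chi x = true → N.chi (N.tau x) = true → N.chi y = true →
    N.chi (N.tau y) = true → y = x ∨ y = N.tau x

theorem exists_inner (N : Net V) (hs : OneSource N) (hV : 4 < Fintype.card V) :
    ∃ x, N.chi x = false ∧ N.chi (N.tau x) = true := by
  by_contra hcon
  push Not at hcon
  have h1 : ∀ x, N.chi x = true → N.chi (N.tau x) = true := by
    intro x hx
    by_contra h2
    have h3 := hcon (N.tau x) (by simpa using h2)
    rw [N.tau_tau] at h3
    exact h3 hx
  have h2 : #{x : V | N.chi x = true} ≤ 2 := by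
    by_cases hne : ∃ x, N.chi x = true
    · obtain ⟨x, hx⟩ := hne
      refine le_trans (card_le_card (t := {x, N.tau x}) ?_) card_le_two
      intro z hz
      rw [mem_filter] at hz
      rw [mem_insert, mem_singleton]
      exact hs x z hx (h1 x hx) hz.2 (h1 z hz.2)
    · have h3 : ({x : V | N.chi x = true} : Finset V) = ∅ := by
        rw [filter_eq_empty_iff]
        intro x _ hx
        exact hne ⟨x, hx⟩
      rw [h3]
      simp
  have h3 := card_two N
  omega

theorem con_oneSource {N : Net V} {y : V} (T : TriAt N y) (hs : OneSource N)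
    (hy : N.chi y = false) : OneSource T.con := by
  have hu : N.chi (N.succ y) = true := by rw [N.chi_succ, hy]; rfl
  have hw : N.chi (N.tau (N.succ y)) = true := by rw [T.tau, N.chi_symm, hy]; rfl
  have key : ∀ x : TriAt.Rest N y, T.con.chi x = true → T.con.chi (T.con.tau x) = true →
      x.1 = y ∨ x.1 = N.tau y := by
    intro x h1 h2
    by_contra h3
    rw [not_or] at h3
    rw [TriAt.con_chi] at h1 h2
    rw [TriAt.con_tau] at h2
    unfold TriAt.cV at h1 h2
    rw [if_neg h3.1] at h1
    rw [if_neg (fun h4 => h3.2 (by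
      have h5 := congrArg N.tau h4
      rwa [N.tau_tau] at h5))] at h2
    rcases hs _ _ hu hw h1 h2 with h4 | h4
    · exact x.2.1 h4
    · rw [T.tau] at h4
      exact x.2.2 h4
  intro x z h1 h2 h3 h4
  rcases key x h1 h2 with h5 | h5 <;> rcases key z h3 h4 with h6 | h6
  · left
    exact Subtype.ext (by rw [h5, h6])
  · right
    exact Subtype.ext (by rw [TriAt.con_tau, h5, h6])
  · right
    exact Subtype.ext (by rw [TriAt.con_tau, h5, h6, N.tau_tau])
  · left
    exact Subtype.ext (by rw [h5, h6])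

/-- The contraction map. -/
def pi (N : Net V) (y x : V) : TriAt.Rest N y :=
  if h : x ≠ N.succ y ∧ x ≠ N.succ.symm y then ⟨x, h⟩ else ⟨y, TriAt.y_mem⟩

theorem pi_rest (N : Net V) (y : V) (x : TriAt.Rest N y) : pi N y x.1 = x := dif_pos x.2

theorem pi_of {N : Net V} {y x : V} (h : x ≠ N.succ y ∧ x ≠ N.succ.symm y) :
    pi N y x = ⟨x, h⟩ := dif_pos h

theorem pi_y (N : Net V) (y : V) : pi N y y = ⟨y, TriAt.y_mem⟩ := dif_pos TriAt.y_mem

theorem pi_u (N : Net V) (y : V) : pi N y (N.succ y) = ⟨y, TriAt.y_mem⟩ :=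
  dif_neg (fun h => h.1 rfl)

theorem pi_w (N : Net V) (y : V) : pi N y (N.succ.symm y) = ⟨y, TriAt.y_mem⟩ :=
  dif_neg (fun h => h.2 rfl)

theorem con_lift {N : Net V} {y : V} (T : TriAt N y) (x : TriAt.Rest N y) :
    ∃ z z' : V, pi N y z = x ∧ pi N y z' = T.con.succ x ∧ z' = N.succ z := by
  by_cases h1 : x.1 = y
  · refine ⟨N.succ y, N.succ (N.succ y), ?_, ?_, rfl⟩
    · rw [pi_u]
      exact Subtype.ext h1.symm
    · rw [pi_of TriAt.q_mem]
      apply Subtype.ext
      rw [TriAt.con_succ, h1, TriAt.sV_y]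
  · by_cases h2 : x.1 = N.succ.symm (N.succ.symm y)
    · refine ⟨x.1, N.succ x.1, pi_rest N y x, ?_, rfl⟩
      rw [h2, Equiv.apply_symm_apply, pi_w]
      apply Subtype.ext
      rw [TriAt.con_succ, h2, TriAt.sV_p]
    · refine ⟨x.1, N.succ x.1, pi_rest N y x, ?_, rfl⟩
      have h3 : N.succ x.1 = (T.con.succ x).1 := by rw [TriAt.con_succ, TriAt.sV_else h1 h2]
      rw [h3, pi_rest]

theorem con_push {N : Net V} {y : V} (T : TriAt N y) (x : V)
    (h : pi N y x ≠ pi N y (N.succ x)) : pi N y (N.succ x) = T.con.succ (pi N y x) := by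
  by_cases hy : x = y
  · exact absurd (by rw [hy, pi_y, pi_u]) h
  · by_cases hw : x = N.succ.symm y
    · exact absurd (by rw [hw, Equiv.apply_symm_apply, pi_y, pi_w]) h
    · by_cases hu : x = N.succ y
      · apply Subtype.ext
        rw [hu, pi_u, pi_of TriAt.q_mem, TriAt.con_succ, TriAt.sV_y]
      · apply Subtype.ext
        by_cases hp : x = N.succ.symm (N.succ.symm y)
        · rw [TriAt.con_succ, hp, pi_of TriAt.p_mem, TriAt.sV_p, Equiv.apply_symm_apply, pi_w]
        · rw [TriAt.con_succ, pi_of ⟨hu, hw⟩, TriAt.sV_else hy hp, pi_of]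
          exact ⟨fun h1 => hy (N.succ.injective h1), fun h1 => hp (TriAt.succ_eq_w h1)⟩

theorem con_push_tau {N : Net V} {y : V} (T : TriAt N y) (x : V)
    (h : pi N y x ≠ pi N y (N.tau x)) : pi N y (N.tau x) = T.con.tau (pi N y x) := by
  by_cases hu : x = N.succ y
  · exact absurd (by rw [hu, T.tau, pi_u, pi_w]) h
  · by_cases hw : x = N.succ.symm y
    · exact absurd (by rw [hw, T.tau', pi_u, pi_w]) h
    · apply Subtype.ext
      rw [TriAt.con_tau, pi_of ⟨hu, hw⟩, pi_of (T.t_mem ⟨hu, hw⟩)]

theorem con_adj {N : Net V} {y : V} (T : TriAt N y) (u v : TriAt.Rest N y) :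
    T.con.graph.Adj u v ↔ (u ≠ v ∧ ∃ x z, pi N y x = u ∧ pi N y z = v ∧ N.graph.Adj x z) := by
  constructor
  · intro h
    refine ⟨h.ne, ?_⟩
    rcases h with h | h | h
    · obtain ⟨x, z, h1, h2, h3⟩ := con_lift T u
      exact ⟨x, z, h1, by rw [h2, h], Or.inl h3⟩
    · obtain ⟨x, z, h1, h2, h3⟩ := con_lift T v
      exact ⟨z, x, by rw [h2, h], h1, Or.inr (Or.inl h3)⟩
    · refine ⟨u.1, N.tau u.1, pi_rest N y u, ?_, Or.inr (Or.inr rfl)⟩
      have h1 : N.tau u.1 = v.1 := by rw [h, TriAt.con_tau]
      rw [h1, pi_rest]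
  · rintro ⟨hne, x, z, rfl, rfl, h | h | h⟩
    · left
      rw [h] at hne ⊢
      exact con_push T x hne
    · right
      left
      rw [h] at hne ⊢
      exact con_push T z hne.symm
    · right
      right
      rw [h] at hne ⊢
      exact con_push_tau T x hne

theorem card_rest (N : Net V) (y : V) : Fintype.card (TriAt.Rest N y) + 2 = Fintype.card V := by
  have h1 : Fintype.card (TriAt.Rest N y) =
      #{x : V | x ≠ N.succ y ∧ x ≠ N.succ.symm y} := Fintype.card_subtype _
  have h2 : ({x : V | x ≠ N.succ y ∧ x ≠ N.succ.symm y} : Finset V) =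
      univ \ {N.succ y, N.succ.symm y} := by
    ext x
    simp
  rw [h2, card_sdiff_of_subset (subset_univ _), card_pair (N.succ_ne_symm y), card_univ] at h1
  have h3 : 2 ≤ Fintype.card V := by
    rw [← card_univ, ← card_pair (N.succ_ne_symm y)]
    exact card_le_card (subset_univ _)
  omega

theorem induct {P : (n : ℕ) → SimpleGraph (Fin n) → Prop} (hP : Closed P) : ∀ (n : ℕ)
    (V : Type) [Fintype V] [DecidableEq V] (N : Net V), Fintype.card V = n → 4 ≤ n →
    N.AllTwo → N.Conn3 → OneSource N →
    ∃ G' : SimpleGraph (Fin n), Nonempty (N.graph ≃g G') ∧ P n G' := by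
  intro n
  induction n using Nat.strong_induction_on with
  | _ n ih =>
    intro V _ _ N hn h4 hA hC hs
    rcases Nat.lt_or_ge 4 n with h5 | h5
    · obtain ⟨y, hy, ht⟩ := tri N hA hs (exists_inner N hs (by omega))
      have T : TriAt N y := triAt hC (by omega) ht
      have hr := card_rest N y
      have he := card_two N
      obtain ⟨m, rfl⟩ : ∃ m, n = m + 2 := ⟨n - 2, by omega⟩
      obtain ⟨G1, ⟨e⟩, h1⟩ := ih m (by omega) (TriAt.Rest N y) T.con (by omega) (by omega)
        (con_allTwo T hA) (con_conn3 T hC) (con_oneSource T hs hy)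
      refine step hP hn N.graph T.con.graph G1 e h1 (graph_cubic N) y (N.succ y)
        (N.succ.symm y) ?_ ?_ ?_ (pi N y) ?_ ?_ ?_ ?_ (con_adj T)
      · exact Or.inl rfl
      · exact Or.inr (Or.inr T.tau.symm)
      · exact Or.inr (Or.inl (N.succ.apply_symm_apply y).symm)
      · exact fun z => ⟨z.1, pi_rest N y z⟩
      · rw [pi_y, pi_u]
      · rw [pi_u, pi_w]
      · intro x z h
        rw [pi_y]
        by_cases hx : x ≠ N.succ y ∧ x ≠ N.succ.symm y
        · by_cases hz : z ≠ N.succ y ∧ z ≠ N.succ.symm y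
          · left
            rw [pi_of hx, pi_of hz] at h
            exact congrArg Subtype.val h
          · right
            rw [h]
            exact dif_neg hz
        · right
          exact dif_neg hx
    · obtain rfl : n = 4 := by omega
      refine ⟨⊤, ⟨⟨Fintype.equivFinOfCardEq hn, ?_⟩⟩, hP.1⟩
      intro a b
      rw [SimpleGraph.top_adj]
      constructor
      · intro h
        exact graph_four N hn a b (fun h1 => h (by rw [h1]))
      · intro h h1
        exact h.ne ((Fintype.equivFinOfCardEq hn).injective h1)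

end Pool.Agent.HamNet
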