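import Mathlib

/-!
# Two involutions without fixed points have a common proper 2-colouring

`exists_bool`: if `i`, `j` are involutions of a finite type without fixed points then there is
`c : X → Bool` with `c (i x) ≠ c x` and `c (j x) ≠ c x` (the union of two perfect matchings is
bipartite).
-/

set_option autoImplicit false

namespace Pool.Agent.HamNet

open Finset

theorem exists_bool {X : Type} [Finite X] (i j : X → X) (hi : ∀ x, i (i x) = x)
    (hj : ∀ x, j (j x) = x) (hi0 : ∀ x, i x ≠ x) (hj0 : ∀ x, j x ≠ x) :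
    ∃ c : X → Bool, ∀ x, c (i x) ≠ c x ∧ c (j x) ≠ c x := by
  classical
  let I : Equiv.Perm X := ⟨i, i, hi, hi⟩
  let J : Equiv.Perm X := ⟨j, j, hj, hj⟩
  let g : Equiv.Perm X := I * J
  have hII : ∀ x, I (I x) = x := hi
  have hJJ : ∀ x, J (J x) = x := hj
  -- `I g I = g⁻¹`
  have hinv : ∀ x, I (g x) = g⁻¹ (I x) := by
    intro x
    rw [Equiv.Perm.eq_inv_iff_eq]
    change I (J (I (I (J x)))) = I x
    rw [hII, hJJ]
  have hinvz : ∀ (n : ℤ) (x : X), I ((g ^ n) x) = (g ^ (-n)) (I x) := by
    intro n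
    induction n with
    | zero => intro x; simp
    | succ n ih =>
      intro x
      rw [zpow_add_one, Equiv.Perm.mul_apply, ih, hinv, ← Equiv.Perm.mul_apply]
      congr 1
      rw [neg_add, zpow_add, zpow_neg_one]
    | pred n ih =>
      intro x
      have h1 : I (g⁻¹ x) = g (I x) := by
        have h2 := hinv (g⁻¹ x)
        have h3 : g (g⁻¹ x) = x := by rw [← Equiv.Perm.mul_apply, mul_inv_cancel]; rfl
        rw [h3] at h2
        have h5 : ∀ y, g (g⁻¹ y) = y := fun y => by
          rw [← Equiv.Perm.mul_apply, mul_inv_cancel]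
          rfl
        rw [h2, h5]
      rw [zpow_sub_one, Equiv.Perm.mul_apply, ih, h1, ← Equiv.Perm.mul_apply]
      congr 1
      rw [neg_sub, sub_neg_eq_add, add_comm, zpow_add, zpow_one, neg_neg]
  -- `x` and `I x` are in different cycles
  have hne : ∀ x, ¬ g.SameCycle x (I x) := by
    rintro x ⟨n, hn⟩
    rcases Int.even_or_odd n with ⟨m, rfl⟩ | ⟨m, rfl⟩
    · apply hi0 ((g ^ m) x)
      have h1 := hinvz m x
      have h2 : -m + (m + m) = m := by ring
      have h3 : (g ^ (-m)) (I x) = (g ^ m) x := by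
        rw [← hn, ← Equiv.Perm.mul_apply, ← zpow_add, h2]
      rw [h3] at h1
      exact h1
    · apply hj0 ((g ^ m) x)
      -- `I (g ^ (m+1) x) = g ^ m x`
      have h1 := hinvz (m + 1) x
      have h2 : -(m + 1) + (2 * m + 1) = m := by ring
      have h4 : (g ^ (-(m + 1))) (I x) = (g ^ m) x := by
        rw [← hn, ← Equiv.Perm.mul_apply, ← zpow_add, h2]
      rw [h4, add_comm m 1, zpow_add, zpow_one, Equiv.Perm.mul_apply] at h1
      have h3 : I (g ((g ^ m) x)) = J ((g ^ m) x) := by
        change I (I (J ((g ^ m) x))) = _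
        rw [hII]
      rw [h3] at h1
      exact h1
  have hsame : ∀ {x y}, g.SameCycle x y → g.SameCycle (I x) (I y) := by
    rintro x y ⟨n, rfl⟩
    exact ⟨-n, (hinvz n x).symm⟩
  obtain ⟨n, ⟨e⟩⟩ := Finite.exists_equiv_fin X
  -- smallest element of a cycle
  let s := Equiv.Perm.SameCycle.setoid g
  have : Finite (Quotient s) := Quotient.finite _
  obtain ⟨n', ⟨e'⟩⟩ := Finite.exists_equiv_fin (Quotient s)
  have hq : ∀ x y, e' (Quotient.mk s x) = e' (Quotient.mk s y) ↔ g.SameCycle x y := by
    intro x y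
    rw [e'.apply_eq_iff_eq, Quotient.eq]
    rfl
  have hJ : ∀ x, e' (Quotient.mk s (J x)) = e' (Quotient.mk s (I x)) := by
    intro x
    rw [hq]
    refine ⟨1, ?_⟩
    rw [zpow_one]
    change I (J (J x)) = I x
    rw [hJJ]
  have hIJ : ∀ x, e' (Quotient.mk s (I (J x))) = e' (Quotient.mk s x) := by
    intro x
    rw [hq]
    refine ⟨-1, ?_⟩
    rw [zpow_neg_one]
    change (g⁻¹ * g) x = x
    rw [inv_mul_cancel]
    rfl
  refine ⟨fun x => decide (e' (Quotient.mk s x) < e' (Quotient.mk s (I x))), fun x => ?_⟩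
  have hx : e' (Quotient.mk s x) ≠ e' (Quotient.mk s (I x)) := fun h => hne x ((hq _ _).1 h)
  constructor
  · change decide (e' (Quotient.mk s (I x)) < e' (Quotient.mk s (I (I x)))) ≠
      decide (e' (Quotient.mk s x) < e' (Quotient.mk s (I x)))
    rw [hII]
    rcases lt_or_gt_of_ne hx with h | h
    · simp [h, h.le]
    · simp [h, h.le]
  · change decide (e' (Quotient.mk s (J x)) < e' (Quotient.mk s (I (J x)))) ≠
      decide (e' (Quotient.mk s x) < e' (Quotient.mk s (I x)))
    rw [hJ, hIJ]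
    rcases lt_or_gt_of_ne hx with h | h
    · simp [h, h.le]
    · simp [h, h.le]

end Pool.Agent.HamNet
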